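import Mathlib

set_option autoImplicit false

/-! Representations of groups with the braid relations of the Humphries diagram in which
`(t_0 - 1)^2 = 0` and `(e - 1)(t_0 - 1) = 0`: all irreducible constituents. -/

namespace Pool.Agent.R665.MGR

section ring
variable {G R : Type*} [Group G] [Ring R]

/-- the braid relations of the Humphries diagram: a chain `t_0, …, t_{n-1}` and `e` attached
to `t_3` -/
structure HumRel (n : ℕ) (t : ℕ → G) (e : G) : Prop where
  braid : ∀ j, j + 1 < n → t j * t (j + 1) * t j = t (j + 1) * t j * t (j + 1)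
  far : ∀ i j, i + 2 ≤ j → j < n → Commute (t i) (t j)
  braidE : t 3 * e * t 3 = e * t 3 * e
  farE : ∀ j, j < n → j ≠ 3 → Commute e (t j)

theorem kill_conj (ρ : G →* R) {s x y z z' : G} (h1 : s * x = y * s) (h2 : s * z = z' * s)
    (h : (ρ x - 1) * (ρ z - 1) = 0) : (ρ y - 1) * (ρ z' - 1) = 0 := by
  have e1 : ρ s * (ρ x - 1) = (ρ y - 1) * ρ s := by
    rw [mul_sub, sub_mul, mul_one, one_mul, ← map_mul, ← map_mul, h1]
  have e2 : ρ s * (ρ z - 1) = (ρ z' - 1) * ρ s := by
    rw [mul_sub, sub_mul, mul_one, one_mul, ← map_mul, ← map_mul, h2]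
  have i1 : ρ s * ρ s⁻¹ = 1 := by rw [← map_mul, mul_inv_cancel, map_one]
  calc (ρ y - 1) * (ρ z' - 1) = (ρ y - 1) * (ρ z' - 1) * (ρ s * ρ s⁻¹) := by rw [i1, mul_one]
    _ = (ρ y - 1) * ((ρ z' - 1) * ρ s) * ρ s⁻¹ := by simp only [mul_assoc]
    _ = (ρ y - 1) * (ρ s * (ρ z - 1)) * ρ s⁻¹ := by rw [e2]
    _ = ((ρ y - 1) * ρ s) * (ρ z - 1) * ρ s⁻¹ := by simp only [mul_assoc]
    _ = ρ s * ((ρ x - 1) * (ρ z - 1)) * ρ s⁻¹ := by rw [← e1]; simp only [mul_assoc]
    _ = 0 := by rw [h, mul_zero, zero_mul]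

theorem move (ρ : G →* R) {x y z : G} (hb : x * y * x = y * x * y) (hx : Commute x z)
    (hy : Commute y z) (h : (ρ x - 1) * (ρ z - 1) = 0) : (ρ y - 1) * (ρ z - 1) = 0 := by
  refine kill_conj ρ (s := x * y) ?_ ?_ h
  · rw [hb, mul_assoc]
  · exact (hx.mul_left hy).eq

theorem move_sq (ρ : G →* R) {x y : G} (hb : x * y * x = y * x * y)
    (h : (ρ x - 1) * (ρ x - 1) = 0) : (ρ y - 1) * (ρ y - 1) = 0 :=
  kill_conj ρ (s := x * y) (by rw [hb, mul_assoc]) (by rw [hb, mul_assoc]) h

theorem comm0 (ρ : G →* R) {x z : G} (hx : Commute x z) (h : (ρ x - 1) * (ρ z - 1) = 0) :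
    (ρ z - 1) * (ρ x - 1) = 0 := by
  have : Commute (ρ x - 1) (ρ z - 1) :=
    ((hx.map ρ).sub_left (Commute.one_left _)).sub_right (Commute.one_right _)
  rw [← this.eq]
  exact h

theorem braid_sub (ρ : G →* R) {x y : G} (hb : x * y * x = y * x * y)
    (hx : (ρ x - 1) * (ρ x - 1) = 0) (hy : (ρ y - 1) * (ρ y - 1) = 0) :
    (ρ x - 1) + (ρ x - 1) * (ρ y - 1) * (ρ x - 1) =
      (ρ y - 1) + (ρ y - 1) * (ρ x - 1) * (ρ y - 1) := by
  have h := congrArg ρ hb
  simp only [map_mul] at h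
  generalize ρ x = a at *
  generalize ρ y = b at *
  linear_combination (norm := noncomm_ring) h - hx + hy

variable {n : ℕ} {t : ℕ → G} {e : G}

theorem sq_all (r : HumRel n t e) (ρ : G →* R)
    (h0 : (ρ (t 0) - 1) * (ρ (t 0) - 1) = 0) :
    ∀ j < n, (ρ (t j) - 1) * (ρ (t j) - 1) = 0 := by
  intro j
  induction j with
  | zero => intro _; exact h0
  | succ j ih =>
    intro hj
    exact move_sq ρ (r.braid j hj) (ih (by omega))

theorem sq_e (r : HumRel n t e) (hn : 6 ≤ n) (ρ : G →* R)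
    (h0 : (ρ (t 0) - 1) * (ρ (t 0) - 1) = 0) : (ρ e - 1) * (ρ e - 1) = 0 :=
  move_sq ρ r.braidE (sq_all r ρ h0 3 (by omega))

theorem far_zero (r : HumRel n t e) (hn : 6 ≤ n) (ρ : G →* R)
    (h1 : (ρ e - 1) * (ρ (t 0) - 1) = 0) :
    ∀ j, 2 ≤ j → j < n → (ρ (t j) - 1) * (ρ (t 0) - 1) = 0 := by
  have a3 : (ρ (t 3) - 1) * (ρ (t 0) - 1) = 0 :=
    move ρ r.braidE.symm (r.farE 0 (by omega) (by omega)) (r.far 0 3 (by omega) (by omega)).symm h1
  have a2 : (ρ (t 2) - 1) * (ρ (t 0) - 1) = 0 :=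
    move ρ (r.braid 2 (by omega)).symm (r.far 0 3 (by omega) (by omega)).symm
      (r.far 0 2 (by omega) (by omega)).symm a3
  intro j h2
  induction j, h2 using Nat.le_induction with
  | base => intro _; exact a2
  | succ j hj ih =>
    intro hn'
    exact move ρ (r.braid j hn') (r.far 0 j (by omega) (by omega)).symm
      (r.far 0 (j + 1) (by omega) (by omega)).symm (ih (by omega))

theorem far_all (r : HumRel n t e) (hn : 6 ≤ n) (ρ : G →* R)
    (h1 : (ρ e - 1) * (ρ (t 0) - 1) = 0) :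
    ∀ i j, i + 2 ≤ j → j < n → (ρ (t j) - 1) * (ρ (t i) - 1) = 0 := by
  intro i
  induction i with
  | zero => intro j h2 hj; exact far_zero r hn ρ h1 j (by omega) hj
  | succ i ih =>
    intro j h2 hj
    have h3 := comm0 ρ (r.far i j (by omega) hj).symm (ih j (by omega) hj)
    exact comm0 ρ (r.far (i + 1) j h2 hj) (move ρ (r.braid i (by omega)) (r.far i j (by omega) hj)
      (r.far (i + 1) j h2 hj) h3)

theorem farE_all (r : HumRel n t e) (hn : 6 ≤ n) (ρ : G →* R)
    (h1 : (ρ e - 1) * (ρ (t 0) - 1) = 0) :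
    ∀ j, j < n → j ≠ 3 → (ρ (t j) - 1) * (ρ e - 1) = 0 := by
  have b0 := comm0 ρ (r.farE 0 (by omega) (by omega)) h1
  have b1 := move ρ (r.braid 0 (by omega)) (r.farE 0 (by omega) (by omega)).symm
    (r.farE 1 (by omega) (by omega)).symm b0
  have b2 := move ρ (r.braid 1 (by omega)) (r.farE 1 (by omega) (by omega)).symm
    (r.farE 2 (by omega) (by omega)).symm b1
  have b5 : ∀ j, 5 ≤ j → j < n → (ρ (t j) - 1) * (ρ e - 1) = 0 := by
    intro j h5 hj
    have h3 := comm0 ρ (r.far 3 j (by omega) hj).symm (far_all r hn ρ h1 3 j (by omega) hj)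
    exact comm0 ρ (r.farE j hj (by omega)) (move ρ r.braidE (r.far 3 j (by omega) hj)
      (r.farE j hj (by omega)) h3)
  have b4 := move ρ (r.braid 4 (by omega)).symm (r.farE 5 (by omega) (by omega)).symm
    (r.farE 4 (by omega) (by omega)).symm (b5 5 (le_refl _) (by omega))
  intro j hj h3
  rcases Nat.lt_or_ge j 5 with h | h
  · interval_cases j
    · exact b0
    · exact b1
    · exact b2
    · exact absurd rfl h3
    · exact b4
  · exact b5 j h hj

end ring

section lin
variable {K V : Type*} [Field K] [AddCommGroup V] [Module K V]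

/-- the relations between the operators `t - 1` -/
structure NRel (n : ℕ) (N : ℕ → Module.End K V) (E : Module.End K V) : Prop where
  sq : ∀ j < n, ∀ v, N j (N j v) = 0
  sqE : ∀ v, E (E v) = 0
  far : ∀ i j, i + 2 ≤ j → j < n → ∀ v, N j (N i v) = 0
  far' : ∀ i j, i + 2 ≤ j → j < n → ∀ v, N i (N j v) = 0
  farE : ∀ j < n, j ≠ 3 → ∀ v, E (N j v) = 0
  farE' : ∀ j < n, j ≠ 3 → ∀ v, N j (E v) = 0
  br : ∀ j, j + 1 < n → ∀ v,
    N j v + N j (N (j + 1) (N j v)) = N (j + 1) v + N (j + 1) (N j (N (j + 1) v))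
  brE : ∀ v, N 3 v + N 3 (E (N 3 v)) = E v + E (N 3 (E v))

/-- `W` is invariant -/
structure NInv (n : ℕ) (N : ℕ → Module.End K V) (E : Module.End K V) (W : Submodule K V) :
    Prop where
  inv : ∀ j < n, ∀ v ∈ W, N j v ∈ W
  invE : ∀ v ∈ W, E v ∈ W

theorem nrel {G : Type*} [Group G] {n : ℕ} {t : ℕ → G} {e : G} (r : HumRel n t e) (hn : 6 ≤ n)
    (ρ : G →* Module.End K V) (h0 : (ρ (t 0) - 1) * (ρ (t 0) - 1) = 0)
    (h1 : (ρ e - 1) * (ρ (t 0) - 1) = 0) : NRel n (fun j => ρ (t j) - 1) (ρ e - 1) where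
  sq := fun j hj v => LinearMap.congr_fun (sq_all r ρ h0 j hj) v
  sqE := fun v => LinearMap.congr_fun (sq_e r hn ρ h0) v
  far := fun i j h2 hj v => LinearMap.congr_fun (far_all r hn ρ h1 i j h2 hj) v
  far' := fun i j h2 hj v =>
    LinearMap.congr_fun (comm0 ρ (r.far i j h2 hj).symm (far_all r hn ρ h1 i j h2 hj)) v
  farE := fun j hj h3 v =>
    LinearMap.congr_fun (comm0 ρ (r.farE j hj h3).symm (farE_all r hn ρ h1 j hj h3)) v
  farE' := fun j hj h3 v => LinearMap.congr_fun (farE_all r hn ρ h1 j hj h3) v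
  br := fun j hj v => LinearMap.congr_fun (braid_sub ρ (r.braid j hj)
    (sq_all r ρ h0 j (by omega)) (sq_all r ρ h0 (j + 1) hj)) v
  brE := fun v => LinearMap.congr_fun (braid_sub ρ r.braidE
    (sq_all r ρ h0 3 (by omega)) (sq_e r hn ρ h0)) v

variable {n : ℕ} {N : ℕ → Module.End K V} {E : Module.End K V}

/-- vectors of `W2` that are invariant modulo `W1` -/
def fixMod (n : ℕ) (N : ℕ → Module.End K V) (E : Module.End K V) (W1 W2 : Submodule K V) :
    Submodule K V where
  carrier := {v | v ∈ W2 ∧ (∀ j < n, N j v ∈ W1) ∧ E v ∈ W1}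
  zero_mem' := ⟨W2.zero_mem, fun j _ => by rw [map_zero]; exact W1.zero_mem,
    by rw [map_zero]; exact W1.zero_mem⟩
  add_mem' := by
    rintro a b ⟨a1, a2, a3⟩ ⟨b1, b2, b3⟩
    refine ⟨W2.add_mem a1 b1, fun j hj => ?_, ?_⟩
    · rw [map_add]; exact W1.add_mem (a2 j hj) (b2 j hj)
    · rw [map_add]; exact W1.add_mem a3 b3
  smul_mem' := by
    rintro c a ⟨a1, a2, a3⟩
    refine ⟨W2.smul_mem c a1, fun j hj => ?_, ?_⟩
    · rw [map_smul]; exact W1.smul_mem c (a2 j hj)
    · rw [map_smul]; exact W1.smul_mem c a3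

theorem mem_fixMod {W1 W2 : Submodule K V} {v : V} : v ∈ fixMod n N E W1 W2 ↔
    v ∈ W2 ∧ (∀ j < n, N j v ∈ W1) ∧ E v ∈ W1 := Iff.rfl

/-- `W1 < W2` are invariant with irreducible quotient -/
structure Irr (n : ℕ) (N : ℕ → Module.End K V) (E : Module.End K V) (W1 W2 : Submodule K V) :
    Prop where
  inv1 : NInv n N E W1
  inv2 : NInv n N E W2
  lt : W1 < W2
  irr : ∀ W, NInv n N E W → W1 ≤ W → W ≤ W2 → W = W1 ∨ W = W2

section irr
variable {W1 W2 : Submodule K V}

theorem dich (h : Irr n N E W1 W2) :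
    (∀ v ∈ W2, (∀ j < n, N j v ∈ W1) ∧ E v ∈ W1) ∨
    (∀ v ∈ W2, (∀ j < n, N j v ∈ W1) → E v ∈ W1 → v ∈ W1) := by
  have hle : W1 ≤ fixMod n N E W1 W2 := fun v hv =>
    mem_fixMod.2 ⟨h.lt.le hv, fun j hj => h.inv1.inv j hj v hv, h.inv1.invE v hv⟩
  rcases h.irr (fixMod n N E W1 W2)
    ⟨fun j hj v hv => hle ((mem_fixMod.1 hv).2.1 j hj), fun v hv => hle (mem_fixMod.1 hv).2.2⟩
    hle (fun v hv => (mem_fixMod.1 hv).1) with h1 | h1
  · right
    intro v hv h2 h3
    rw [← h1]
    exact mem_fixMod.2 ⟨hv, h2, h3⟩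
  · left
    intro v hv
    rw [← h1] at hv
    exact (mem_fixMod.1 hv).2

theorem X_mem (r : NRel n N E) (hn : 6 ≤ n) (h : Irr n N E W1 W2)
    (hfix : ∀ v ∈ W2, (∀ j < n, N j v ∈ W1) → E v ∈ W1 → v ∈ W1) {j : ℕ} (hj : j + 1 < n)
    {v : V} (hv : v ∈ W2) : N j v + N j (N (j + 1) (N j v)) ∈ W1 := by
  have i2 := h.inv2.inv
  refine hfix _ (W2.add_mem (i2 j (by omega) v hv) (i2 j (by omega) _ (i2 (j + 1) hj _
    (i2 j (by omega) v hv)))) ?_ ?_
  · intro i hi
    have e0 : N i (N j v + N j (N (j + 1) (N j v))) = 0 := by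
      rcases lt_trichotomy i j with h1 | h1 | h1
      · rcases Nat.lt_or_ge (i + 1) j with h2 | h2
        · rw [map_add, r.far' i j (by omega) (by omega), r.far' i j (by omega) (by omega), add_zero]
        · rw [r.br j hj, map_add, r.far' i (j + 1) (by omega) (by omega),
            r.far' i (j + 1) (by omega) (by omega), add_zero]
      · subst h1
        rw [map_add, r.sq _ hi, r.sq _ hi, add_zero]
      · rcases Nat.lt_or_ge (j + 1) i with h2 | h2
        · rw [map_add, r.far j i (by omega) hi, r.far j i (by omega) hi, add_zero]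
        · obtain rfl : i = j + 1 := by omega
          rw [r.br j hj, map_add, r.sq _ hi, r.sq _ hi, add_zero]
    rw [e0]
    exact W1.zero_mem
  · have e0 : E (N j v + N j (N (j + 1) (N j v))) = 0 := by
      by_cases h3 : j = 3
      · rw [r.br j hj, map_add, r.farE (j + 1) hj (by omega), r.farE (j + 1) hj (by omega),
          add_zero]
      · rw [map_add, r.farE j (by omega) h3, r.farE j (by omega) h3, add_zero]
    rw [e0]
    exact W1.zero_mem

theorem XE_mem (r : NRel n N E) (hn : 6 ≤ n) (h : Irr n N E W1 W2)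
    (hfix : ∀ v ∈ W2, (∀ j < n, N j v ∈ W1) → E v ∈ W1 → v ∈ W1)
    {v : V} (hv : v ∈ W2) : N 3 v + N 3 (E (N 3 v)) ∈ W1 := by
  have i2 := h.inv2.inv
  refine hfix _ (W2.add_mem (i2 3 (by omega) v hv) (i2 3 (by omega) _ (h.inv2.invE _
    (i2 3 (by omega) v hv)))) ?_ ?_
  · intro i hi
    have e0 : N i (N 3 v + N 3 (E (N 3 v))) = 0 := by
      by_cases h3 : i = 3
      · subst h3
        rw [map_add, r.sq _ hi, r.sq _ hi, add_zero]
      · rw [r.brE, map_add, r.farE' i hi h3, r.farE' i hi h3, add_zero]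
    rw [e0]
    exact W1.zero_mem
  · have e0 : E (N 3 v + N 3 (E (N 3 v))) = 0 := by
      rw [r.brE, map_add, r.sqE, r.sqE, add_zero]
    rw [e0]
    exact W1.zero_mem

theorem exists_u (r : NRel n N E) (hn : 6 ≤ n) (h : Irr n N E W1 W2)
    (hfix : ∀ v ∈ W2, (∀ j < n, N j v ∈ W1) → E v ∈ W1 → v ∈ W1) :
    ∃ u ∈ W2, N 0 u ∉ W1 := by
  by_contra hcon
  push Not at hcon
  have key : ∀ j < n, ∀ v ∈ W2, N j v ∈ W1 := by
    intro j
    induction j with
    | zero => intro _ v hv; exact hcon v hv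
    | succ j ih =>
      intro hj v hv
      have h1 := X_mem r hn h hfix hj hv
      rw [r.br j hj] at h1
      have h2 := h.inv1.inv (j + 1) hj _ (ih (by omega) _ (h.inv2.inv (j + 1) hj v hv))
      have h3 := W1.sub_mem h1 h2
      rwa [add_sub_cancel_right] at h3
  have keyE : ∀ v ∈ W2, E v ∈ W1 := by
    intro v hv
    have h1 := XE_mem r hn h hfix hv
    rw [r.brE] at h1
    have h2 := h.inv1.invE _ (key 3 (by omega) _ (h.inv2.invE v hv))
    have h3 := W1.sub_mem h1 h2
    rwa [add_sub_cancel_right] at h3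
  exact absurd (fun v hv => hfix v hv (fun j hj => key j hj v hv) (keyE v hv)) h.lt.not_ge

/-- the auxiliary sequence -/
def yy (N : ℕ → Module.End K V) (u : V) : ℕ → V
  | 0 => u
  | j + 1 => - N j (yy N u j)

/-- the basis of the constituent -/
def ww (N : ℕ → Module.End K V) (u : V) (j : ℕ) : V := N j (yy N u j)

theorem ww_succ (u : V) (j : ℕ) : N (j + 1) (ww N u j) = - ww N u (j + 1) := by
  have : ww N u (j + 1) = N (j + 1) (- ww N u j) := rfl
  rw [this, map_neg, neg_neg]

/-- the relations between the vectors `w_j` -/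
structure RRel (n : ℕ) (N : ℕ → Module.End K V) (E : Module.End K V) (W1 : Submodule K V)
    (w : ℕ → V) : Prop where
  up : ∀ j, j + 1 < n → N (j + 1) (w j) + w (j + 1) ∈ W1
  down : ∀ j, j + 1 < n → N j (w (j + 1)) - w j ∈ W1
  far : ∀ i < n, ∀ j < n, i ≠ j + 1 → j ≠ i + 1 → N i (w j) ∈ W1
  E3 : E (w 3) - (w 0 + w 2) ∈ W1
  Efar : ∀ j < n, j ≠ 3 → E (w j) ∈ W1

/-- the conclusion on the vectors `w_j` -/
structure WRel (n : ℕ) (N : ℕ → Module.End K V) (E : Module.End K V) (W1 W2 : Submodule K V)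
    (w : ℕ → V) : Prop extends RRel n N E W1 w where
  mem : ∀ j < n, w j ∈ W2
  ne : ∀ j < n, w j ∉ W1
  span : W2 ≤ W1 ⊔ Submodule.span K {v | ∃ j < n, v = w j}

theorem exists_w (r : NRel n N E) (hn : 6 ≤ n) (h : Irr n N E W1 W2)
    (hfix : ∀ v ∈ W2, (∀ j < n, N j v ∈ W1) → E v ∈ W1 → v ∈ W1) :
    ∃ w, WRel n N E W1 W2 w := by
  obtain ⟨u, hu, hu0⟩ := exists_u r hn h hfix
  have hy : ∀ j ≤ n, yy N u j ∈ W2 := by
    intro j
    induction j with
    | zero => intro _; exact hu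
    | succ j ih => intro hj; exact W2.neg_mem (h.inv2.inv j (by omega) _ (ih (by omega)))
  have hw : ∀ j < n, ww N u j ∈ W2 := fun j hj => h.inv2.inv j hj _ (hy j hj.le)
  have hdown : ∀ j, j + 1 < n → N j (ww N u (j + 1)) - ww N u j ∈ W1 := by
    intro j hj
    have h1 := X_mem r hn h hfix hj (hy j (by omega))
    have e1 : N j (ww N u (j + 1)) = - N j (N (j + 1) (N j (yy N u j))) := by
      have : ww N u (j + 1) = N (j + 1) (- N j (yy N u j)) := rfl
      rw [this, map_neg, map_neg]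
    have e2 : N j (ww N u (j + 1)) - ww N u j =
        - (N j (yy N u j) + N j (N (j + 1) (N j (yy N u j)))) := by
      rw [e1]
      have : ww N u j = N j (yy N u j) := rfl
      rw [this]
      abel
    rw [e2]
    exact W1.neg_mem h1
  have hne : ∀ j < n, ww N u j ∉ W1 := by
    intro j
    induction j with
    | zero => intro _; exact hu0
    | succ j ih =>
      intro hj hcon
      apply ih (by omega)
      have h1 := W1.sub_mem (h.inv1.inv j (by omega) _ hcon) (hdown j hj)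
      rwa [sub_sub_cancel] at h1
  have hfar : ∀ i < n, ∀ j < n, i ≠ j + 1 → j ≠ i + 1 → N i (ww N u j) = 0 := by
    intro i hi j hj h1 h2
    rcases lt_trichotomy i j with h3 | h3 | h3
    · exact r.far' i j (by omega) hj _
    · subst h3; exact r.sq i hi _
    · exact r.far j i (by omega) hi _
  have hEfar : ∀ j < n, j ≠ 3 → E (ww N u j) = 0 := fun j hj h3 => r.farE j hj h3 _
  have hz : E (ww N u 3) - (ww N u 0 + ww N u 2) ∈ W1 := by
    refine hfix _ (W2.sub_mem (h.inv2.invE _ (hw 3 (by omega)))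
      (W2.add_mem (hw 0 (by omega)) (hw 2 (by omega)))) ?_ ?_
    · intro i hi
      rw [map_sub, map_add]
      by_cases h1 : i = 1
      · subst h1
        rw [r.farE' 1 hi (by omega), ww_succ (N := N) u 0]
        have h2 := hdown 1 (by omega)
        have e1 : (0 : V) - (- ww N u (0 + 1) + N 1 (ww N u 2)) =
          - (N 1 (ww N u 2) - ww N u 1) := by
          rw [zero_add]; abel
        rw [e1]
        exact W1.neg_mem h2
      · by_cases h3 : i = 3
        · subst h3
          rw [ww_succ (N := N) u 2, hfar 3 hi 0 (by omega) (by omega) (by omega)]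
          have h2 := XE_mem r hn h hfix (hy 3 (by omega))
          have e1 : N 3 (E (ww N u 3)) - (0 + - ww N u (2 + 1)) =
            N 3 (yy N u 3) + N 3 (E (N 3 (yy N u 3))) := by
            have : ww N u 3 = N 3 (yy N u 3) := rfl
            rw [show 2 + 1 = 3 from rfl, this]
            abel
          rw [e1]
          exact h2
        · rw [r.farE' i hi h3, hfar i hi 0 (by omega) (by omega) (by omega),
            hfar i hi 2 (by omega) (by omega) (by omega)]
          simp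
    · rw [map_sub, map_add, r.sqE, hEfar 0 (by omega) (by omega), hEfar 2 (by omega) (by omega)]
      simp
  refine ⟨ww N u, ⟨?_, hdown, ?_, hz, ?_⟩, hw, hne, ?_⟩
  · intro j _
    rw [ww_succ, neg_add_cancel]
    exact W1.zero_mem
  · intro i hi j hj h1 h2
    rw [hfar i hi j hj h1 h2]
    exact W1.zero_mem
  · intro j hj h3
    rw [hEfar j hj h3]
    exact W1.zero_mem
  · set S : Set V := {v | ∃ j < n, v = ww N u j} with hS
    have hwS : ∀ j < n, ww N u j ∈ W1 ⊔ Submodule.span K S := fun j hj =>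
      Submodule.mem_sup_right (Submodule.subset_span ⟨j, hj, rfl⟩)
    have hinv : ∀ F : Module.End K V, (∀ v ∈ W1, F v ∈ W1) →
        (∀ j < n, F (ww N u j) ∈ W1 ⊔ Submodule.span K S) →
        ∀ v ∈ W1 ⊔ Submodule.span K S, F v ∈ W1 ⊔ Submodule.span K S := by
      intro F h1 h2 v hv
      have hle : W1 ⊔ Submodule.span K S ≤ (W1 ⊔ Submodule.span K S).comap F := by
        refine sup_le (fun v hv => Submodule.mem_sup_left (h1 v hv)) (Submodule.span_le.2 ?_)
        rintro v ⟨j, hj, rfl⟩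
        exact h2 j hj
      exact hle hv
    have hI : NInv n N E (W1 ⊔ Submodule.span K S) := by
      refine ⟨?_, ?_⟩
      · intro i hi
        refine hinv (N i) (fun v hv => h.inv1.inv i hi v hv) ?_
        intro j hj
        by_cases h1 : i = j + 1
        · subst h1
          rw [ww_succ]
          exact Submodule.neg_mem _ (hwS _ hi)
        · by_cases h2 : j = i + 1
          · subst h2
            have h3 := Submodule.add_mem _ (Submodule.mem_sup_left (hdown i hj)) (hwS i hi)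
            rwa [sub_add_cancel] at h3
          · rw [hfar i hi j hj h1 h2]
            exact Submodule.zero_mem _
      · refine hinv E (fun v hv => h.inv1.invE v hv) ?_
        intro j hj
        by_cases h3 : j = 3
        · subst h3
          have h4 := Submodule.add_mem _ (Submodule.mem_sup_left hz)
            (Submodule.add_mem _ (hwS 0 (by omega)) (hwS 2 (by omega)))
          rwa [sub_add_cancel] at h4
        · rw [hEfar j hj h3]
          exact Submodule.zero_mem _
    rcases h.irr (W1 ⊔ Submodule.span K S) hI le_sup_left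
      (sup_le h.lt.le (Submodule.span_le.2 (by rintro v ⟨j, hj, rfl⟩; exact hw j hj))) with h1 | h1
    · exact absurd (h1 ▸ hwS 0 (by omega)) (hne 0 (by omega))
    · exact h1.ge

end irr

end lin

end Pool.Agent.R665.MGR
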