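import Mathlib
import Pool.Agent.R665.MGR.Alg

set_option autoImplicit false

/-! The basis of a nontrivial constituent in terms of the homology basis. -/

namespace Pool.Agent.R665.MGR

section
variable {K V : Type*} [Field K] [AddCommGroup V] [Module K V]
  {n : ℕ} {N : ℕ → Module.End K V} {E : Module.End K V} {W1 W2 : Submodule K V} {w : ℕ → V}

/-- partial sums of the vectors with even index -/
def uu (w : ℕ → V) : ℕ → V
  | 0 => w 0
  | i + 1 => uu w i + w (2 * i + 2)

theorem B1 (r : RRel n N E W1 w) {i : ℕ} (hi : 2 * i + 1 < n) (m : ℕ) : 2 * m < n →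
    N (2 * i + 1) (uu w m) + (if m = i then (1 : K) else 0) • w (2 * i + 1) ∈ W1 := by
  induction m with
  | zero =>
    intro _
    by_cases h : 0 = i
    · subst h
      rw [if_pos rfl, one_smul]
      exact r.up 0 (by omega)
    · rw [if_neg h, zero_smul, add_zero]
      exact r.far _ hi 0 (by omega) (by omega) (by omega)
  | succ m ih =>
    intro hm
    have ih := ih (by omega)
    have e : N (2 * i + 1) (uu w (m + 1)) =
        N (2 * i + 1) (uu w m) + N (2 * i + 1) (w (2 * m + 2)) := map_add _ _ _
    rw [e]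
    by_cases h : m = i
    · subst h
      rw [if_pos rfl, one_smul] at ih
      rw [if_neg (by omega), zero_smul, add_zero]
      have h2 := W1.add_mem ih (r.down (2 * m + 1) (by omega))
      convert h2 using 1
      abel
    · rw [if_neg h, zero_smul, add_zero] at ih
      by_cases h' : m + 1 = i
      · subst h'
        rw [if_pos rfl, one_smul]
        have h2 := W1.add_mem ih (r.up (2 * m + 2) (by omega))
        rw [show 2 * m + 2 + 1 = 2 * (m + 1) + 1 by ring] at h2
        convert h2 using 1
        abel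
      · rw [if_neg h', zero_smul, add_zero]
        exact W1.add_mem ih (r.far _ hi _ (by omega) (by omega) (by omega))

theorem B2 (r : RRel n N E W1 w) {i : ℕ} (hi : 2 * i < n) (m : ℕ) : 2 * m < n →
    N (2 * i) (uu w m) ∈ W1 := by
  induction m with
  | zero => intro _; exact r.far _ hi 0 (by omega) (by omega) (by omega)
  | succ m ih =>
    intro hm
    have e : N (2 * i) (uu w (m + 1)) =
        N (2 * i) (uu w m) + N (2 * i) (w (2 * m + 2)) := map_add _ _ _
    rw [e]
    exact W1.add_mem (ih (by omega)) (r.far _ hi _ (by omega) (by omega) (by omega))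

theorem B3 (r : RRel n N E W1 w) (m : ℕ) : 2 * m < n → E (uu w m) ∈ W1 := by
  induction m with
  | zero => intro _; exact r.Efar 0 (by omega) (by omega)
  | succ m ih =>
    intro hm
    have e : E (uu w (m + 1)) = E (uu w m) + E (w (2 * m + 2)) := map_add _ _ _
    rw [e]
    exact W1.add_mem (ih (by omega)) (r.Efar _ (by omega) (by omega))

theorem B5 (r : RRel n N E W1 w) {i m : ℕ} (hi : 2 * i < n) (hm : 2 * m + 1 < n) :
    N (2 * i) (w (2 * m + 1)) - (if m = i then (1 : K) else if m + 1 = i then -1 else 0) •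
      w (2 * i) ∈ W1 := by
  by_cases h : m = i
  · subst h
    rw [if_pos rfl, one_smul]
    exact r.down _ hm
  · rw [if_neg h]
    by_cases h' : m + 1 = i
    · subst h'
      rw [if_pos rfl, neg_one_smul, sub_neg_eq_add]
      exact r.up _ (by omega)
    · rw [if_neg h', zero_smul, sub_zero]
      exact r.far _ hi _ hm (by omega) (by omega)

theorem B6 (r : RRel n N E W1 w) {m : ℕ} (hm : 2 * m + 1 < n) :
    E (w (2 * m + 1)) - (if m = 1 then (1 : K) else 0) • uu w 1 ∈ W1 := by
  by_cases h : m = 1
  · subst h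
    rw [if_pos rfl, one_smul]
    exact r.E3
  · rw [if_neg h, zero_smul, sub_zero]
    exact r.Efar _ hm (by omega)

theorem lin_mod {ι : Type*} [Fintype ι] (F : Module.End K V) (u : ι → V) (c s : ι → K) (x : V)
    (h : ∀ i, F (u i) + s i • x ∈ W1) :
    F (∑ i, c i • u i) + (∑ i, c i * s i) • x ∈ W1 := by
  have e : F (∑ i, c i • u i) + (∑ i, c i * s i) • x = ∑ i, c i • (F (u i) + s i • x) := by
    rw [map_sum, Finset.sum_smul, ← Finset.sum_add_distrib]
    apply Finset.sum_congr rfl
    intro i _
    rw [map_smul, smul_add, smul_smul]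
  rw [e]
  exact W1.sum_mem fun i _ => W1.smul_mem _ (h i)

/-- the vectors corresponding to the homology basis -/
def ub (g : ℕ) (w : ℕ → V) : Fin g ⊕ Fin g → V :=
  Sum.elim (fun m => uu w m) (fun m => w (2 * m + 1))

/-- the coefficients of the intersection with `c` -/
def sf (K : Type*) [Field K] {g : ℕ} (c : Fin g ⊕ Fin g → ℤ) : Fin g ⊕ Fin g → K :=
  Sum.elim (fun m => (c (Sum.inr m) : K)) (fun m => -(c (Sum.inl m) : K))

/-- `F = t - 1` acts modulo `W1` like the transvection with class `c` -/
structure GenRel {g : ℕ} (W1 : Submodule K V) (u : Fin g ⊕ Fin g → V) (F : Module.End K V)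
    (x : V) (c : Fin g ⊕ Fin g → ℤ) : Prop where
  rel : ∀ k, F (u k) + sf K c k • x ∈ W1
  val : x = ∑ k, (c k : K) • u k

/-- the class of the curve `c_{2i}` -/
def ce {g : ℕ} (i : Fin g) : Fin g ⊕ Fin g → ℤ :=
  Sum.elim (fun m => if m = i then 1 else if (m : ℕ) + 1 = i then -1 else 0) (fun _ => 0)

variable {g : ℕ}

theorem gen_odd (r : RRel (2 * g) N E W1 w) (i : Fin g) :
    GenRel W1 (ub g w) (N (2 * i + 1)) (w (2 * i + 1)) (Pi.single (Sum.inr i) 1) := by
  refine ⟨?_, ?_⟩
  · rintro (m | m)
    · have h := B1 r (i := (i : ℕ)) (by omega) (m : ℕ) (by omega)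
      have e : sf K (Pi.single (Sum.inr i) 1 : Fin g ⊕ Fin g → ℤ) (Sum.inl m) =
          if (m : ℕ) = i then (1 : K) else 0 := by
        unfold sf
        simp only [Sum.elim_inl]
        by_cases hm : m = i
        · subst hm; simp
        · rw [if_neg (fun e => hm (Fin.ext e))]
          simp [hm]
      rw [e]
      exact h
    · have e : sf K (Pi.single (Sum.inr i) 1 : Fin g ⊕ Fin g → ℤ) (Sum.inr m) = 0 := by
        unfold sf
        simp
      rw [e, zero_smul, add_zero]
      exact r.far _ (by omega) _ (by omega) (by omega) (by omega)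
  · rw [Finset.sum_eq_single (Sum.inr i)]
    · simp [ub]
    · intro b _ hb
      rw [Pi.single_eq_of_ne hb]
      simp
    · intro h; exact absurd (Finset.mem_univ _) h

theorem gen_even (r : RRel (2 * g) N E W1 w) (i : Fin g) :
    GenRel W1 (ub g w) (N (2 * i)) (w (2 * i)) (ce i) := by
  refine ⟨?_, ?_⟩
  · rintro (m | m)
    · have e : sf K (ce i) (Sum.inl m) = 0 := by
        unfold sf ce
        simp
      rw [e, zero_smul, add_zero]
      exact B2 r (by omega) _ (by omega)
    · have h := B5 r (i := (i : ℕ)) (m := (m : ℕ)) (by omega) (by omega)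
      have e : sf K (ce i) (Sum.inr m) =
          -(if (m : ℕ) = i then (1 : K) else if (m : ℕ) + 1 = i then -1 else 0) := by
        unfold sf ce
        simp only [Sum.elim_inr, Sum.elim_inl]
        by_cases hm : m = i
        · subst hm; simp
        · rw [if_neg hm, if_neg (fun e => hm (Fin.ext e))]
          split_ifs <;> simp
      rw [e, neg_smul, ← sub_eq_add_neg]
      exact h
  · rw [Fintype.sum_sum_type]
    have e2 : ∑ m : Fin g, ((ce i (Sum.inr m) : ℤ) : K) • ub g w (Sum.inr m) = 0 := by
      apply Finset.sum_eq_zero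
      intro m _
      simp [ce]
    rw [e2, add_zero]
    rcases Nat.eq_zero_or_pos (i : ℕ) with h | h
    · rw [Finset.sum_eq_single i]
      · simp [ce, ub, h, uu]
      · intro b _ hb
        have : ¬ (b : ℕ) + 1 = i := by omega
        simp [ce, hb, this]
      · intro h; exact absurd (Finset.mem_univ _) h
    · obtain ⟨k, hk⟩ : ∃ k, (i : ℕ) = k + 1 := ⟨i - 1, by omega⟩
      have hkg : k < g := by omega
      have hne : (⟨k, hkg⟩ : Fin g) ≠ i := fun e => by
        have := congrArg Fin.val e
        simp at this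
        omega
      have hsub : ∑ m : Fin g, ((ce i (Sum.inl m) : ℤ) : K) • ub g w (Sum.inl m) =
          ∑ m ∈ ({i, ⟨k, hkg⟩} : Finset (Fin g)),
            ((ce i (Sum.inl m) : ℤ) : K) • ub g w (Sum.inl m) := by
        symm
        apply Finset.sum_subset (Finset.subset_univ _)
        intro m _ hm
        simp only [Finset.mem_insert, Finset.mem_singleton, not_or] at hm
        have h1 : ¬ (m : ℕ) + 1 = i := fun e => hm.2 (Fin.ext (by simp; omega))
        simp [ce, hm.1, h1]
      rw [hsub, Finset.sum_pair hne.symm]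
      have e3 : ub g w (Sum.inl i) = ub g w (Sum.inl ⟨k, hkg⟩) + w (2 * k + 2) := by
        show uu w i = uu w k + w (2 * k + 2)
        rw [hk]
        rfl
      have e4 : ((ce i (Sum.inl i) : ℤ) : K) = 1 := by simp [ce]
      have e5 : ((ce i (Sum.inl ⟨k, hkg⟩) : ℤ) : K) = -1 := by
        simp [ce, hne, hk]
      rw [e3, e4, e5, hk, show 2 * (k + 1) = 2 * k + 2 by ring]
      module

theorem gen_e (r : RRel (2 * g) N E W1 w) (i : Fin g) (hi : (i : ℕ) = 1) :
    GenRel W1 (ub g w) E (uu w 1) (Pi.single (Sum.inl i) 1) := by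
  refine ⟨?_, ?_⟩
  · rintro (m | m)
    · have e : sf K (Pi.single (Sum.inl i) 1 : Fin g ⊕ Fin g → ℤ) (Sum.inl m) = 0 := by
        unfold sf
        simp
      rw [e, zero_smul, add_zero]
      exact B3 r _ (by omega)
    · have h := B6 r (m := (m : ℕ)) (by omega)
      have e : sf K (Pi.single (Sum.inl i) 1 : Fin g ⊕ Fin g → ℤ) (Sum.inr m) =
          -(if (m : ℕ) = 1 then (1 : K) else 0) := by
        unfold sf
        simp only [Sum.elim_inr]
        by_cases hm : m = i
        · subst hm; simp [hi]
        · rw [if_neg (fun e => hm (Fin.ext (e.trans hi.symm)))]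
          simp [hm]
      rw [e, neg_smul, ← sub_eq_add_neg]
      exact h
  · rw [Finset.sum_eq_single (Sum.inl i)]
    · simp [ub, hi]
    · intro b _ hb
      rw [Pi.single_eq_of_ne hb]
      simp
    · intro h; exact absurd (Finset.mem_univ _) h

theorem smul_not_mem {x : V} (hx : x ∉ W1) {a : K} (h : a • x ∈ W1) : a = 0 := by
  by_contra ha
  exact hx ((Submodule.smul_mem_iff W1 ha).1 h)

theorem lin_indep (r : WRel (2 * g) N E W1 W2 w) (hinv : NInv (2 * g) N E W1)
    (c : Fin g ⊕ Fin g → K) (hc : ∑ k, c k • ub g w k ∈ W1) : c = 0 := by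
  have hgen : ∀ (F : Module.End K V) (x : V) (cl : Fin g ⊕ Fin g → ℤ), (∀ v ∈ W1, F v ∈ W1) →
      x ∉ W1 → GenRel W1 (ub g w) F x cl → ∑ k, c k * sf K cl k = 0 := by
    intro F x cl hF hx hG
    have h1 := lin_mod (W1 := W1) F (ub g w) c (sf K cl) x hG.rel
    have h2 := W1.sub_mem h1 (hF _ hc)
    rw [add_sub_cancel_left] at h2
    exact smul_not_mem hx h2
  have hl : ∀ i : Fin g, c (Sum.inl i) = 0 := by
    intro i
    have h1 := hgen (N (2 * i + 1)) (w (2 * i + 1)) (Pi.single (Sum.inr i) 1)
      (fun v hv => hinv.inv _ (by omega) v hv) (r.ne _ (by omega)) (gen_odd r.toRRel i)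
    rw [Finset.sum_eq_single (Sum.inl i)] at h1
    · simpa [sf] using h1
    · rintro (b | b) _ hb
      · have : b ≠ i := fun e => hb (by rw [e])
        simp [sf, this]
      · simp [sf]
    · intro h; exact absurd (Finset.mem_univ _) h
  have hr : ∀ (a : ℕ) (i : Fin g), (i : ℕ) = a → c (Sum.inr i) = 0 := by
    intro a
    induction a using Nat.strong_induction_on with
    | _ a ih =>
      intro i hia
      have h1 := hgen (N (2 * i)) (w (2 * i)) (ce i)
        (fun v hv => hinv.inv _ (by omega) v hv) (r.ne _ (by omega)) (gen_even r.toRRel i)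
      rw [Finset.sum_eq_single (Sum.inr i)] at h1
      · simpa [sf, ce] using h1
      · rintro (b | b) _ hb
        · simp [sf, ce]
        · have hbi : b ≠ i := fun e => hb (by rw [e])
          by_cases h2 : (b : ℕ) + 1 = i
          · rw [ih b (by omega) b rfl, zero_mul]
          · simp [sf, ce, hbi, h2]
      · intro h; exact absurd (Finset.mem_univ _) h
  funext k
  rcases k with i | i
  · exact hl i
  · exact hr i i rfl

theorem span_ub (r : WRel (2 * g) N E W1 W2 w) :
    W2 ≤ W1 ⊔ Submodule.span K (Set.range (ub g w)) := by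
  refine r.span.trans (sup_le le_sup_left (Submodule.span_le.2 ?_))
  rintro v ⟨j, hj, rfl⟩
  refine Submodule.mem_sup_right ?_
  have hu : ∀ k, ub g w k ∈ Submodule.span K (Set.range (ub g w)) := fun k =>
    Submodule.subset_span ⟨k, rfl⟩
  rcases Nat.even_or_odd' j with ⟨i, rfl | rfl⟩
  · have h := (gen_even r.toRRel (⟨i, by omega⟩ : Fin g)).val
    rw [show w (2 * i) = _ from h]
    exact Submodule.sum_mem _ fun k _ => Submodule.smul_mem _ _ (hu k)
  · exact hu (Sum.inr ⟨i, by omega⟩)

theorem ub_mem (r : WRel (2 * g) N E W1 W2 w) (k : Fin g ⊕ Fin g) : ub g w k ∈ W2 := by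
  have h : ∀ m, 2 * m < 2 * g → uu w m ∈ W2 := by
    intro m
    induction m with
    | zero => intro h; exact r.mem 0 (by omega)
    | succ m ih => intro h; exact W2.add_mem (ih (by omega)) (r.mem _ (by omega))
  rcases k with i | i
  · exact h i (by omega)
  · exact r.mem _ (by omega)

end

end Pool.Agent.R665.MGR
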