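import Mathlib
import Pool.Agent.R352.MG.C
import Pool.Agent.R665.MGR.Alg

set_option autoImplicit false

/-! The relations between Humphries' twists, and their action on homology. -/

namespace Pool.Agent.R665.MGR

open Pool.Agent.H29R2.MG Pool.Agent.TH35.MG Pool.Agent.R352.MG

section
variable {g : ℕ}

/-- the endomorphism `b_m ↦ b_m a_m` of the free group -/
def hT (g m : ℕ) : FreeGroup (Fin g ⊕ Fin g) →* FreeGroup (Fin g ⊕ Fin g) :=
  FreeGroup.lift (Sum.elim (fun i => fa i) (fun i => if (i : ℕ) = m then fb i * fa i else fb i))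

theorem hT_fa (m : ℕ) (i : Fin g) : hT g m (fa i) = fa i := by
  conv_lhs => rw [fa]
  simp [hT]

theorem hT_fb (m : ℕ) (i : Fin g) :
    hT g m (fb i) = if (i : ℕ) = m then fb i * fa i else fb i := by
  conv_lhs => rw [fb]
  simp [hT]

theorem app_mk {m : ℕ} {τ : orientedAut g}
    (h : ∀ j, applyAut g τ (gen j) = twistValAt g m j) (x : FreeGroup (Fin g ⊕ Fin g)) :
    τ.1 (mk g x) = mk g (hT g m x) := by
  have h1 : (τ.1 : MulAut (SurfaceGroup g)).toMonoidHom.comp (mk g) = (mk g).comp (hT g m) := by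
    apply free_ext
    · intro i
      rw [MonoidHom.comp_apply, MonoidHom.comp_apply, hT_fa]
      exact h (Sum.inl i)
    · intro i
      rw [MonoidHom.comp_apply, MonoidHom.comp_apply, hT_fb]
      refine (h (Sum.inr i)).trans ?_
      show (if (i : ℕ) = m then _ else _) = _
      split_ifs
      · rw [map_mul]; rfl
      · rfl
  exact DFunLike.congr_fun h1 x

theorem hT_ee (i : Fin g) : hT g 1 (ee i) = ee i := by
  unfold ee
  rw [map_mul, hT_fa]
  congr 1
  by_cases h : 0 < (i : ℕ)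
  · rw [dif_pos h, map_mul, map_mul, map_inv, map_inv, hT_fa, hT_fb]
    split_ifs
    · group
    · rfl
  · rw [dif_neg h, map_one]

theorem hT_fv (j : Fin (2 * g)) (hj : (j : ℕ) ≠ 3) :
    (hT g 1).comp (fv j) = (fv j).comp (hT g 1) := by
  by_cases h2 : (j : ℕ) % 2 = 0
  · have e : fv j = stepE ⟨j / 2, by omega⟩ (ee ⟨j / 2, by omega⟩) := by
      unfold fv; rw [if_pos h2]
    generalize (⟨(j : ℕ) / 2, by omega⟩ : Fin g) = i at e
    rw [e]
    have hx := hT_ee i
    generalize ee i = x at hx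
    apply free_ext
    · intro m
      rw [MonoidHom.comp_apply, MonoidHom.comp_apply, hT_fa, stepE_fa]
      by_cases h3 : m = i
      · rw [if_pos h3, map_mul, map_mul, map_inv, hx, hT_fa]
      · rw [if_neg h3, hT_fa]
    · intro m
      rw [MonoidHom.comp_apply, MonoidHom.comp_apply, hT_fb, stepE_fb]
      by_cases h1 : (m : ℕ) = 1
      · rw [if_pos h1, map_mul, stepE_fb, stepE_fa]
        by_cases h3 : m = i
        · rw [if_pos h3, if_pos h3, map_mul, hT_fb, if_pos h1, hx]
          group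
        · rw [if_neg h3, if_neg h3]
          by_cases h4 : (m : ℕ) + 1 = i
          · rw [if_pos h4, map_mul, map_inv, hx, hT_fb, if_pos h1]
            group
          · rw [if_neg h4, hT_fb, if_pos h1]
      · rw [if_neg h1, stepE_fb]
        by_cases h3 : m = i
        · rw [if_pos h3, map_mul, hT_fb, if_neg h1, hx]
        · rw [if_neg h3]
          by_cases h4 : (m : ℕ) + 1 = i
          · rw [if_pos h4, map_mul, map_inv, hx, hT_fb, if_neg h1]
          · rw [if_neg h4, hT_fb, if_neg h1]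
  · have e : fv j = stepA ⟨j / 2, by omega⟩ (fb ⟨j / 2, by omega⟩) := by
      unfold fv; rw [if_neg h2]
    have hi : ((⟨(j : ℕ) / 2, by omega⟩ : Fin g) : ℕ) ≠ 1 := by
      show (j : ℕ) / 2 ≠ 1
      omega
    generalize (⟨(j : ℕ) / 2, by omega⟩ : Fin g) = i at e hi
    rw [e]
    apply free_ext
    · intro m
      rw [MonoidHom.comp_apply, MonoidHom.comp_apply, hT_fa, stepA_fa]
      by_cases h3 : m = i
      · rw [if_pos h3, map_mul, map_inv, hT_fa, hT_fb, if_neg hi]
      · rw [if_neg h3, hT_fa]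
    · intro m
      rw [MonoidHom.comp_apply, MonoidHom.comp_apply, hT_fb, stepA_fb, hT_fb]
      by_cases h1 : (m : ℕ) = 1
      · have h3 : m ≠ i := fun e => hi (e ▸ h1)
        rw [if_pos h1, map_mul, stepA_fb, stepA_fa, if_neg h3]
      · rw [if_neg h1, stepA_fb]

theorem hT_braid (j : Fin (2 * g)) (hj : (j : ℕ) = 3) :
    (fv j).comp ((hT g 1).comp (fv j)) = (hT g 1).comp ((fv j).comp (hT g 1)) := by
  have e : fv j = stepA ⟨j / 2, by omega⟩ (fb ⟨j / 2, by omega⟩) := by
    unfold fv; rw [if_neg (by omega)]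
  have hi : ((⟨(j : ℕ) / 2, by omega⟩ : Fin g) : ℕ) = 1 := by
    show (j : ℕ) / 2 = 1
    omega
  generalize (⟨(j : ℕ) / 2, by omega⟩ : Fin g) = i at e hi
  rw [e]
  apply free_ext
  · intro m
    simp only [MonoidHom.comp_apply]
    rw [hT_fa, stepA_fa]
    by_cases h3 : m = i
    · subst h3
      rw [if_pos rfl, map_mul, map_inv, hT_fa, hT_fb, if_pos hi, map_mul, map_inv, map_mul,
        stepA_fa, if_pos rfl, stepA_fb]
      group
    · rw [if_neg h3, hT_fa, stepA_fa, if_neg h3]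
  · intro m
    simp only [MonoidHom.comp_apply]
    rw [hT_fb, stepA_fb, hT_fb]
    by_cases h1 : (m : ℕ) = 1
    · have h3 : m = i := Fin.ext (h1.trans hi.symm)
      subst h3
      rw [if_pos h1, map_mul, stepA_fb, stepA_fa, if_pos rfl, map_mul, map_mul, map_inv, hT_fa,
        hT_fb, if_pos h1]
      group
    · rw [if_neg h1, stepA_fb, hT_fb, if_neg h1]

/-- the mapping class of the `j`-th twist of the chain -/
def chainTwist (g : ℕ) (j : Fin (2 * g)) : Mod g := classOf g ⟨sv j, sv_pres j⟩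

/-- the chain indexed by natural numbers -/
def tt (g : ℕ) (j : ℕ) : Mod g := if h : j < 2 * g then chainTwist g ⟨j, h⟩ else 1

theorem tt_lt {j : ℕ} (h : j < 2 * g) : tt g j = chainTwist g ⟨j, h⟩ := dif_pos h

theorem classOf_mul (φ ψ : orientedAut g) : classOf g (φ * ψ) = classOf g φ * classOf g ψ := rfl

theorem humRel (hg : 3 ≤ g) {T : Mod g} (hT' : IsTwistAt g 1 T) : HumRel (2 * g) (tt g) T where
  braid := by
    intro j hj
    rw [tt_lt (show j < 2 * g by omega), tt_lt hj]
    have h := sv_braid (g := g) ⟨j, by omega⟩ ⟨j + 1, hj⟩ rfl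
    have h2 : (⟨sv ⟨j, by omega⟩, sv_pres _⟩ : orientedAut g) * ⟨sv ⟨j + 1, hj⟩, sv_pres _⟩ *
        ⟨sv ⟨j, by omega⟩, sv_pres _⟩ = ⟨sv ⟨j + 1, hj⟩, sv_pres _⟩ *
        ⟨sv ⟨j, by omega⟩, sv_pres _⟩ * ⟨sv ⟨j + 1, hj⟩, sv_pres _⟩ := Subtype.ext h
    exact congrArg (classOf g) h2
  far := by
    intro i j h hj
    rw [tt_lt (show i < 2 * g by omega), tt_lt hj]
    have h := sv_far (g := g) ⟨i, by omega⟩ ⟨j, hj⟩ h
    have h2 : (⟨sv ⟨i, by omega⟩, sv_pres _⟩ : orientedAut g) * ⟨sv ⟨j, hj⟩, sv_pres _⟩ =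
        ⟨sv ⟨j, hj⟩, sv_pres _⟩ * ⟨sv ⟨i, by omega⟩, sv_pres _⟩ := Subtype.ext h
    exact congrArg (classOf g) h2
  braidE := by
    obtain ⟨τ, rfl, h⟩ := hT'
    rw [tt_lt (show 3 < 2 * g by omega)]
    have h1 := hT_braid (g := g) ⟨3, by omega⟩ rfl
    have h2 : (⟨sv ⟨3, by omega⟩, sv_pres _⟩ : orientedAut g) * τ * ⟨sv ⟨3, by omega⟩, sv_pres _⟩ =
        τ * ⟨sv ⟨3, by omega⟩, sv_pres _⟩ * τ := by
      apply Subtype.ext
      apply MulEquiv.ext
      intro y
      obtain ⟨x, rfl⟩ := mk_surjective g y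
      simp only [Subgroup.coe_mul, MulAut.mul_apply, sv_mk, app_mk h]
      have := DFunLike.congr_fun h1 x
      simp only [MonoidHom.comp_apply] at this
      rw [this]
    exact congrArg (classOf g) h2
  farE := by
    intro j hj h3
    obtain ⟨τ, rfl, h⟩ := hT'
    rw [tt_lt hj]
    have h1 := hT_fv (g := g) ⟨j, hj⟩ h3
    have h2 : τ * (⟨sv ⟨j, hj⟩, sv_pres _⟩ : orientedAut g) = ⟨sv ⟨j, hj⟩, sv_pres _⟩ * τ := by
      apply Subtype.ext
      apply MulEquiv.ext
      intro y
      obtain ⟨x, rfl⟩ := mk_surjective g y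
      simp only [Subgroup.coe_mul, MulAut.mul_apply, sv_mk, app_mk h]
      have := DFunLike.congr_fun h1 x
      simp only [MonoidHom.comp_apply] at this
      rw [this]
    exact congrArg (classOf g) h2

theorem tt_zero (hg : 1 ≤ g) : IsTwistAt g 0 (tt g 0) := by
  rw [tt_lt (show 0 < 2 * g by omega)]
  refine ⟨_, rfl, ?_⟩
  have e : fv (⟨0, by omega⟩ : Fin (2 * g)) = stepE ⟨0, by omega⟩ (fa ⟨0, by omega⟩) := by
    unfold fv
    rw [if_pos (by simp)]
    have : ee (⟨0, by omega⟩ : Fin g) = fa ⟨0, by omega⟩ := by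
      unfold ee
      rw [dif_neg (by simp), one_mul]
    simp only [Nat.zero_div, this]
  rintro (i | i)
  · show sv _ (mk g (fa i)) = gen (Sum.inl i)
    rw [sv_mk, e, stepE_fa]
    split_ifs with h
    · rw [h, inv_mul_cancel, one_mul]; rfl
    · rfl
  · show sv _ (mk g (fb i)) = if (i : ℕ) = 0 then _ else _
    rw [sv_mk, e, stepE_fb]
    by_cases h : (i : ℕ) = 0
    · have h' : i = ⟨0, by omega⟩ := Fin.ext h
      rw [if_pos h', if_pos h, map_mul, ← h']
      rfl
    · have h' : i ≠ ⟨0, by omega⟩ := fun e => h (by rw [e])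
      rw [if_neg h', if_neg h, if_neg (by simp)]
      rfl

theorem hc_tv (φ : MulAut (SurfaceGroup g)) (u : Fin g ⊕ Fin g → ℤ)
    (ha : ∀ m, homologyClass (φ (mk g (fa m))) = tv u (Pi.single (Sum.inl m) 1))
    (hb : ∀ m, homologyClass (φ (mk g (fb m))) = tv u (Pi.single (Sum.inr m) 1)) :
    ∀ y : SurfaceGroup g, homologyClass (φ y) = tv u (homologyClass y) := by
  intro y
  obtain ⟨x, rfl⟩ := mk_surjective g y
  induction x using FreeGroup.induction_on with
  | C1 => rw [map_one, map_one, hc_one, tv, form_zero_left]; simp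
  | of j =>
    rcases j with m | m
    · have h1 := ha m
      have h2 := hc_fa m
      unfold fa at h1 h2
      rw [h1, h2]
    · have h1 := hb m
      have h2 := hc_fb m
      unfold fb at h1 h2
      rw [h1, h2]
  | inv_of j h =>
    rw [map_inv, map_inv, hc_inv, h, hc_inv, tv, tv, form_neg_left]
    module
  | mul x y hx hy =>
    rw [map_mul, map_mul, hc_mul, hx, hy, hc_mul, tv, tv, tv, form_add_left]
    module

theorem hc_even (i : Fin g) (y : SurfaceGroup g) :
    homologyClass (sv (⟨2 * i, by omega⟩ : Fin (2 * g)) y) =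
      tv (homologyClass (mk g (ee i))) (homologyClass y) := by
  have e : fv (⟨2 * i, by omega⟩ : Fin (2 * g)) = stepE i (ee i) := by
    unfold fv
    rw [if_pos (by simp)]
    have h1 : (⟨(2 * (i : ℕ)) / 2, by omega⟩ : Fin g) = i := Fin.ext (by simp)
    simp only [h1]
  refine hc_tv _ _ ?_ ?_ y
  · intro m
    rw [sv_mk, e, stepE_fa, tv, form_inl, ee_inr, zero_smul, sub_zero]
    split_ifs with h
    · rw [map_mul, map_mul, map_inv, hc_mul, hc_mul, hc_inv, hc_fa]
      abel
    · rw [hc_fa]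
  · intro m
    rw [sv_mk, e, stepE_fb, tv, form_inr, ee_inl]
    split_ifs with h h2
    · rw [map_mul, hc_mul, hc_fb]
      module
    · rw [map_mul, map_inv, hc_mul, hc_inv, hc_fb]
      module
    · rw [hc_fb]
      module

theorem hc_odd (i : Fin g) (y : SurfaceGroup g) :
    homologyClass (sv (⟨2 * i + 1, by omega⟩ : Fin (2 * g)) y) =
      tv (Pi.single (Sum.inr i) 1) (homologyClass y) := by
  have e : fv (⟨2 * i + 1, by omega⟩ : Fin (2 * g)) = stepA i (fb i) := by
    unfold fv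
    rw [if_neg (by simp)]
    have h1 : (⟨(2 * (i : ℕ) + 1) / 2, by omega⟩ : Fin g) = i := Fin.ext (by simp; omega)
    simp only [h1]
  refine hc_tv _ _ ?_ ?_ y
  · intro m
    rw [sv_mk, e, stepA_fa, tv, form_inl]
    split_ifs with h
    · subst h
      rw [map_mul, map_inv, hc_mul, hc_inv, hc_fa, hc_fb]
      simp
      abel
    · rw [hc_fa]
      simp [h]
  · intro m
    rw [sv_mk, e, stepA_fb, tv, form_inr, hc_fb]
    simp

theorem hc_tau {τ : orientedAut g} (h : ∀ j, applyAut g τ (gen j) = twistValAt g 1 j)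
    (i : Fin g) (hi : (i : ℕ) = 1) (y : SurfaceGroup g) :
    homologyClass (τ.1 y) = tv (Pi.single (Sum.inl i) 1) (homologyClass y) := by
  refine hc_tv _ _ ?_ ?_ y
  · intro m
    rw [app_mk h, hT_fa, tv, form_inl, hc_fa]
    simp
  · intro m
    rw [app_mk h, hT_fb, tv, form_inr]
    by_cases h1 : (m : ℕ) = 1
    · have h2 : m = i := Fin.ext (h1.trans hi.symm)
      subst h2
      rw [if_pos h1, map_mul, hc_mul, hc_fa, hc_fb]
      simp
    · have h2 : m ≠ i := fun e => h1 (by rw [e, hi])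
      rw [if_neg h1, hc_fb]
      simp [h2]

theorem hc_class {φ ψ : orientedAut g} (h : classOf g φ = classOf g ψ) (y : SurfaceGroup g) :
    homologyClass (φ.1 y) = homologyClass (ψ.1 y) := by
  have h1 : φ⁻¹ * ψ ∈ innerAut g := QuotientGroup.eq.1 h
  rw [innerAut, Subgroup.mem_subgroupOf] at h1
  obtain ⟨c, hc⟩ := h1
  have h2 : ψ.1 y = φ.1 (c * y * c⁻¹) := by
    have h3 := congrArg (fun (x : MulAut (SurfaceGroup g)) => φ.1 (x y)) hc
    simp only [MulAut.conj_apply, Subgroup.coe_mul, InvMemClass.coe_inv, MulAut.mul_apply,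
      MulAut.apply_inv_self] at h3
    exact h3.symm
  rw [h2, map_mul, map_mul, map_inv, hc_mul, hc_mul, hc_inv]
  abel

end

end Pool.Agent.R665.MGR
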