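import Mathlib
import Pool.Agent.R665.MGR.Bas

set_option autoImplicit false

/-! The filtration `V ⊇ V' ⊇ V' ∩ V^inv` without irreducibility hypotheses. -/

namespace Pool.Agent.R665.MGR

section
variable {K V : Type*} [Field K] [AddCommGroup V] [Module K V]
  {n : ℕ} {N : ℕ → Module.End K V} {E : Module.End K V}

/-- the invariant vectors -/
def Vinv (n : ℕ) (N : ℕ → Module.End K V) (E : Module.End K V) : Submodule K V :=
  fixMod n N E ⊥ ⊤

theorem mem_Vinv {v : V} : v ∈ Vinv n N E ↔ (∀ j < n, N j v = 0) ∧ E v = 0 := by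
  unfold Vinv
  rw [mem_fixMod]
  simp only [Submodule.mem_bot, Submodule.mem_top, true_and]

/-- the span of the images -/
def Vim (n : ℕ) (N : ℕ → Module.End K V) (E : Module.End K V) : Submodule K V :=
  Submodule.span K {v | ∃ u, (∃ j < n, v = N j u) ∨ v = E u}

theorem N_mem_Vim {j : ℕ} (hj : j < n) (u : V) : N j u ∈ Vim n N E :=
  Submodule.subset_span ⟨u, Or.inl ⟨j, hj, rfl⟩⟩

theorem E_mem_Vim (u : V) : E u ∈ Vim n N E := Submodule.subset_span ⟨u, Or.inr rfl⟩

theorem X_inv (r : NRel n N E) (hn : 6 ≤ n) {j : ℕ} (hj : j + 1 < n) (v : V) :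
    N j v + N j (N (j + 1) (N j v)) ∈ Vinv n N E := by
  rw [mem_Vinv]
  refine ⟨?_, ?_⟩
  · intro i hi
    rcases lt_trichotomy i j with h1 | h1 | h1
    · rcases Nat.lt_or_ge (i + 1) j with h2 | h2
      · rw [map_add, r.far' i j (by omega) (by omega), r.far' i j (by omega) (by omega), add_zero]
      · rw [r.br j hj, map_add, r.far' i (j + 1) (by omega) (by omega),
          r.far' i (j + 1) (by omega) (by omega), add_zero]
    · subst h1
      rw [map_add, r.sq _ hi, r.sq _ hi, add_zero]
    · rcases Nat.lt_or_ge (j + 1) i with h2 | h2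
      · rw [map_add, r.far j i (by omega) hi, r.far j i (by omega) hi, add_zero]
      · obtain rfl : i = j + 1 := by omega
        rw [r.br j hj, map_add, r.sq _ hi, r.sq _ hi, add_zero]
  · by_cases h3 : j = 3
    · rw [r.br j hj, map_add, r.farE (j + 1) hj (by omega), r.farE (j + 1) hj (by omega),
        add_zero]
    · rw [map_add, r.farE j (by omega) h3, r.farE j (by omega) h3, add_zero]

theorem XE_inv (r : NRel n N E) (hn : 6 ≤ n) (v : V) :
    N 3 v + N 3 (E (N 3 v)) ∈ Vinv n N E := by
  rw [mem_Vinv]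
  refine ⟨?_, ?_⟩
  · intro i hi
    by_cases h3 : i = 3
    · subst h3
      rw [map_add, r.sq _ hi, r.sq _ hi, add_zero]
    · rw [r.brE, map_add, r.farE' i hi h3, r.farE' i hi h3, add_zero]
  · rw [r.brE, map_add, r.sqE, r.sqE, add_zero]

theorem X_kill (r : NRel n N E) (hn : 6 ≤ n) {j : ℕ} (hj : j + 1 < n) {v : V}
    (hv : v ∈ Vim n N E) : N j v + N j (N (j + 1) (N j v)) = 0 := by
  induction hv using Submodule.span_induction with
  | mem v hv =>
    obtain ⟨u, ⟨k, hk, rfl⟩ | rfl⟩ := hv
    · rcases lt_trichotomy k j with h1 | h1 | h1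
      · rcases Nat.lt_or_ge (k + 1) j with h2 | h2
        · rw [r.far k j (by omega) (by omega), map_zero, map_zero, add_zero]
        · rw [r.br j hj, r.far k (j + 1) (by omega) (by omega), map_zero, map_zero, add_zero]
      · subst h1
        rw [r.sq _ hk, map_zero, map_zero, add_zero]
      · rcases Nat.lt_or_ge (j + 1) k with h2 | h2
        · rw [r.far' j k (by omega) hk, map_zero, map_zero, add_zero]
        · obtain rfl : k = j + 1 := by omega
          rw [r.br j hj, r.sq _ hk, map_zero, map_zero, add_zero]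
    · by_cases h3 : j = 3
      · rw [r.br j hj, r.farE' (j + 1) hj (by omega), map_zero, map_zero, add_zero]
      · rw [r.farE' j (by omega) h3, map_zero, map_zero, add_zero]
  | zero => simp
  | add x y _ _ hx hy =>
    have e : N j (x + y) + N j (N (j + 1) (N j (x + y))) =
        (N j x + N j (N (j + 1) (N j x))) + (N j y + N j (N (j + 1) (N j y))) := by
      simp only [map_add]
      abel
    rw [e, hx, hy, add_zero]
  | smul a x _ hx =>
    have e : N j (a • x) + N j (N (j + 1) (N j (a • x))) =
        a • (N j x + N j (N (j + 1) (N j x))) := by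
      simp only [map_smul, smul_add]
    rw [e, hx, smul_zero]

theorem XE_kill (r : NRel n N E) (hn : 6 ≤ n) {v : V}
    (hv : v ∈ Vim n N E) : N 3 v + N 3 (E (N 3 v)) = 0 := by
  induction hv using Submodule.span_induction with
  | mem v hv =>
    obtain ⟨u, ⟨k, hk, rfl⟩ | rfl⟩ := hv
    · by_cases h3 : k = 3
      · subst h3
        rw [r.sq _ hk, map_zero, map_zero, add_zero]
      · rw [r.brE, r.farE k hk h3, map_zero, map_zero, add_zero]
    · rw [r.brE, r.sqE, map_zero, map_zero, add_zero]
  | zero => simp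
  | add x y _ _ hx hy =>
    have e : N 3 (x + y) + N 3 (E (N 3 (x + y))) =
        (N 3 x + N 3 (E (N 3 x))) + (N 3 y + N 3 (E (N 3 y))) := by
      simp only [map_add]
      abel
    rw [e, hx, hy, add_zero]
  | smul a x _ hx =>
    have e : N 3 (a • x) + N 3 (E (N 3 (a • x))) = a • (N 3 x + N 3 (E (N 3 x))) := by
      simp only [map_smul, smul_add]
    rw [e, hx, smul_zero]

theorem rrel (r : NRel n N E) (hn : 6 ≤ n) {y : V} (hy : y ∈ Vim n N E) :
    RRel n N E (Vinv n N E) (ww N y) := by
  have hyy : ∀ j ≤ n, yy N y j ∈ Vim n N E := by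
    intro j
    cases j with
    | zero => intro _; exact hy
    | succ j => intro hj; exact Submodule.neg_mem _ (N_mem_Vim (by omega) _)
  have hdown : ∀ j, j + 1 < n → N j (ww N y (j + 1)) - ww N y j = 0 := by
    intro j hj
    have h1 := X_kill r hn hj (hyy j (by omega))
    have e1 : N j (ww N y (j + 1)) = - N j (N (j + 1) (N j (yy N y j))) := by
      have : ww N y (j + 1) = N (j + 1) (- N j (yy N y j)) := rfl
      rw [this, map_neg, map_neg]
    have e2 : N j (ww N y (j + 1)) - ww N y j =
        - (N j (yy N y j) + N j (N (j + 1) (N j (yy N y j)))) := by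
      rw [e1]
      have : ww N y j = N j (yy N y j) := rfl
      rw [this]
      abel
    rw [e2, h1, neg_zero]
  have hfar : ∀ i < n, ∀ j < n, i ≠ j + 1 → j ≠ i + 1 → N i (ww N y j) = 0 := by
    intro i hi j hj h1 h2
    rcases lt_trichotomy i j with h3 | h3 | h3
    · exact r.far' i j (by omega) hj _
    · subst h3; exact r.sq i hi _
    · exact r.far j i (by omega) hi _
  have hEfar : ∀ j < n, j ≠ 3 → E (ww N y j) = 0 := fun j hj h3 => r.farE j hj h3 _
  refine ⟨?_, ?_, ?_, ?_, ?_⟩
  · intro j _
    rw [ww_succ, neg_add_cancel]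
    exact Submodule.zero_mem _
  · intro j hj
    rw [hdown j hj]
    exact Submodule.zero_mem _
  · intro i hi j hj h1 h2
    rw [hfar i hi j hj h1 h2]
    exact Submodule.zero_mem _
  · rw [mem_Vinv]
    refine ⟨?_, ?_⟩
    · intro i hi
      rw [map_sub, map_add]
      by_cases h1 : i = 1
      · subst h1
        rw [r.farE' 1 hi (by omega), ww_succ (N := N) y 0]
        have h2 := hdown 1 (by omega)
        have e1 : (0 : V) - (- ww N y (0 + 1) + N 1 (ww N y 2)) =
          - (N 1 (ww N y 2) - ww N y 1) := by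
          rw [zero_add]; abel
        rw [e1, h2, neg_zero]
      · by_cases h3 : i = 3
        · subst h3
          rw [ww_succ (N := N) y 2, hfar 3 hi 0 (by omega) (by omega) (by omega)]
          have h2 := XE_kill r hn (hyy 3 (by omega))
          have e1 : N 3 (E (ww N y 3)) - (0 + - ww N y (2 + 1)) =
            N 3 (yy N y 3) + N 3 (E (N 3 (yy N y 3))) := by
            have : ww N y 3 = N 3 (yy N y 3) := rfl
            rw [show 2 + 1 = 3 from rfl, this]
            abel
          rw [e1, h2]
        · rw [r.farE' i hi h3, hfar i hi 0 (by omega) (by omega) (by omega),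
            hfar i hi 2 (by omega) (by omega) (by omega)]
          simp
    · rw [map_sub, map_add, r.sqE, hEfar 0 (by omega) (by omega), hEfar 2 (by omega) (by omega)]
      simp
  · intro j hj h3
    rw [hEfar j hj h3]
    exact Submodule.zero_mem _

theorem N_eq_w (r : NRel n N E) (hn : 6 ≤ n) : ∀ i < n, ∀ u ∈ Vim n N E,
    ∃ y ∈ Vim n N E, N i u = ww N y i := by
  intro i
  induction i with
  | zero => intro _ u hu; exact ⟨u, hu, rfl⟩
  | succ i ih =>
    intro hi u hu
    obtain ⟨y, hy, h1⟩ := ih (by omega) (N (i + 1) u) (N_mem_Vim hi u)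
    refine ⟨y, hy, ?_⟩
    have h2 := X_kill r hn hi hu
    rw [r.br i hi, h1, ww_succ, ← sub_eq_add_neg, sub_eq_zero] at h2
    exact h2

/-- a linear map killing the invariants and sending the `w_j(y)`, `y ∈ V'`, to invariants sends
`V'` to the invariants -/
theorem F_Vim (r : NRel n N E) (hn : 6 ≤ n) (F : Module.End K V)
    (h0 : ∀ v ∈ Vinv n N E, F v = 0)
    (hF : ∀ y ∈ Vim n N E, ∀ j < n, F (ww N y j) ∈ Vinv n N E) :
    ∀ v ∈ Vim n N E, F v ∈ Vinv n N E := by
  have hN : ∀ i < n, ∀ u ∈ Vim n N E, F (N i u) ∈ Vinv n N E := by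
    intro i hi u hu
    obtain ⟨y, hy, h1⟩ := N_eq_w r hn i hi u hu
    rw [h1]
    exact hF y hy i hi
  have key : ∀ (a b : V), a + b ∈ Vinv n N E → F b ∈ Vinv n N E → F a ∈ Vinv n N E := by
    intro a b h1 h2
    have h3 := h0 _ h1
    rw [map_add] at h3
    rw [eq_neg_of_add_eq_zero_left h3]
    exact Submodule.neg_mem _ h2
  have hE : ∀ u ∈ Vim n N E, F (E u) ∈ Vinv n N E := by
    intro u hu
    -- `E u = - E (N 3 (E u))`
    obtain ⟨y, hy, h1⟩ := N_eq_w r hn 3 (by omega) (E u) (E_mem_Vim u)
    have h2 := XE_kill r hn hu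
    rw [r.brE, h1] at h2
    have h3 := (rrel r hn hy).E3
    have h4 : E u + (ww N y 0 + ww N y 2) ∈ Vinv n N E := by
      have e : E u + (ww N y 0 + ww N y 2) =
          (E u + E (ww N y 3)) - (E (ww N y 3) - (ww N y 0 + ww N y 2)) := by abel
      rw [e, h2, zero_sub]
      exact Submodule.neg_mem _ h3
    refine key _ _ h4 ?_
    rw [map_add]
    exact Submodule.add_mem _ (hF y hy 0 (by omega)) (hF y hy 2 (by omega))
  intro v hv
  induction hv using Submodule.span_induction with
  | mem v hv =>
    obtain ⟨u, ⟨k, hk, rfl⟩ | rfl⟩ := hv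
    · rcases Nat.eq_zero_or_pos k with rfl | hpos
      · exact key _ _ (X_inv r hn (j := 0) (by omega) u)
          (hN 0 hk _ (N_mem_Vim (by omega) _))
      · obtain ⟨j, rfl⟩ : ∃ j, k = j + 1 := ⟨k - 1, by omega⟩
        have h1 := X_inv r hn hk u
        rw [r.br j hk] at h1
        exact key _ _ h1 (hN (j + 1) hk _ (N_mem_Vim (by omega) _))
    · have h1 := XE_inv r hn u
      rw [r.brE] at h1
      exact key _ _ h1 (hE _ (N_mem_Vim (by omega) _))
  | zero => rw [map_zero]; exact Submodule.zero_mem _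
  | add x y _ _ hx hy => rw [map_add]; exact Submodule.add_mem _ hx hy
  | smul a x _ hx => rw [map_smul]; exact Submodule.smul_mem _ _ hx

end

end Pool.Agent.R665.MGR
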