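import Mathlib
import Pool.Agent.R665.MGR.Hum
import Pool.Agent.R665.MGR.Tor

set_option autoImplicit false

/-! Representations of the mapping class group `Mod_g` of dimension less than `binom (g - 5) 2`:
definitions and equivariance. -/

namespace Pool.Agent.R665.MGR

open Pool.Agent.H29R2.MG Pool.Agent.TH35.MG Pool.Agent.R352.MG Module

universe u

/-- the subgroup of `Mod_g` generated by Humphries' `2 g + 1` Dehn twists: the chain
`chainTwist g j`, `j < 2 g`, and the twist `b_1 ↦ b_1 a_1` about `a_1` -/
def Humphries (g : ℕ) : Subgroup (Mod g) :=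
  Subgroup.closure ({t | ∃ j : Fin (2 * g), t = chainTwist g j} ∪ {t | IsTwistAt g 1 t})

section defs
variable {g d : ℕ} {K : Type u} [Field K]

/-- the matrix `f(x)` applied to the column vector `v` -/
def act (f : Mod g →* Matrix.GeneralLinearGroup (Fin d) K) (x : Mod g) (v : Fin d → K) :
    Fin d → K := (f x : Matrix (Fin d) (Fin d) K).mulVec v

/-- `W` is invariant under the Humphries group -/
def Invariant (f : Mod g →* Matrix.GeneralLinearGroup (Fin d) K)
    (W : Submodule K (Fin d → K)) : Prop := ∀ x ∈ Humphries g, ∀ v ∈ W, act f x v ∈ W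

/-- `W1 < W2` are invariant subspaces and no invariant subspace lies strictly between them:
`W2 / W1` is an irreducible constituent -/
def IrrConstituent (f : Mod g →* Matrix.GeneralLinearGroup (Fin d) K)
    (W1 W2 : Submodule K (Fin d → K)) : Prop :=
  Invariant f W1 ∧ Invariant f W2 ∧ W1 < W2 ∧
    ∀ W, Invariant f W → W1 ≤ W → W ≤ W2 → W = W1 ∨ W = W2

/-- the Humphries group acts trivially on `W2 / W1` -/
def ActsTrivially (f : Mod g →* Matrix.GeneralLinearGroup (Fin d) K)
    (W1 W2 : Submodule K (Fin d → K)) : Prop :=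
  ∀ x ∈ Humphries g, ∀ v ∈ W2, act f x v - v ∈ W1

/-- the combination `Σ n_i u_i` -/
def comb (v : Fin g ⊕ Fin g → (Fin d → K)) (n : Fin g ⊕ Fin g → ℤ) : Fin d → K :=
  ∑ i, (n i : K) • v i

/-- `W2 / W1` is isomorphic to `H_1(Σ_g; K)`, of dimension `2 g`: the classes of the vectors
`u_i` form a basis of `W2 / W1` and the map sending the homology class `Σ n_i [gen i]` to
`Σ n_i u_i` is equivariant -/
def IsHomology (f : Mod g →* Matrix.GeneralLinearGroup (Fin d) K)
    (W1 W2 : Submodule K (Fin d → K)) : Prop :=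
  ∃ v : Fin g ⊕ Fin g → (Fin d → K),
    (∀ i, v i ∈ W2) ∧ W2 ≤ W1 ⊔ Submodule.span K (Set.range v) ∧
    (∀ c : Fin g ⊕ Fin g → K, ∑ i, c i • v i ∈ W1 → c = 0) ∧
    ∀ φ : orientedAut g, classOf g φ ∈ Humphries g → ∀ y : SurfaceGroup g,
      act f (classOf g φ) (comb v (homologyClass y)) -
        comb v (homologyClass (applyAut g φ y)) ∈ W1

end defs

/-- `x` is an element of the Humphries group acting trivially on homology -/
def Torelli (g : ℕ) (x : Mod g) : Prop :=
  x ∈ Humphries g ∧ ∀ φ : orientedAut g, classOf g φ = x → ∀ y : SurfaceGroup g,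
    homologyClass (applyAut g φ y) = homologyClass y

section proofs
variable {g d : ℕ} {K : Type u} [Field K]

/-- the representation by endomorphisms -/
noncomputable def rho (f : Mod g →* Matrix.GeneralLinearGroup (Fin d) K) :
    Mod g →* Module.End K (Fin d → K) where
  toFun x := Matrix.toLinAlgEquiv' (f x : Matrix (Fin d) (Fin d) K)
  map_one' := by rw [map_one, Units.val_one, map_one]
  map_mul' x y := by rw [map_mul, Units.val_mul, map_mul]

theorem rho_def (f : Mod g →* Matrix.GeneralLinearGroup (Fin d) K) (x : Mod g) :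
    rho f x = Matrix.toLinAlgEquiv' (f x : Matrix (Fin d) (Fin d) K) := rfl

theorem rho_apply (f : Mod g →* Matrix.GeneralLinearGroup (Fin d) K) (x : Mod g)
    (v : Fin d → K) : rho f x v = act f x v := by
  rw [rho_def, Matrix.toLinAlgEquiv'_apply]
  rfl

theorem rho_sub (f : Mod g →* Matrix.GeneralLinearGroup (Fin d) K) (x : Mod g) :
    rho f x - 1 = Matrix.toLinAlgEquiv' ((f x : Matrix (Fin d) (Fin d) K) - 1) := by
  rw [map_sub, map_one, rho_def]

theorem choose_two_le (n : ℕ) : (n + 1).choose 2 ≤ 2 ^ n := by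
  induction n with
  | zero => decide
  | succ n ih =>
    rw [Nat.choose_succ_succ' (n + 1) 1, Nat.choose_one_right, pow_succ]
    have h1 : n < 2 ^ n := Nat.lt_two_pow_self
    have h2 : (n + 1).choose (1 + 1) = (n + 1).choose 2 := rfl
    omega

theorem seven_le (hd : d < (g - 5).choose 2) : 7 ≤ g := by
  by_contra h
  rw [Nat.choose_eq_zero_of_lt (by omega)] at hd
  omega

theorem pow_bound (hd : d < (g - 5).choose 2) : d < 2 ^ (g - 4 - 2) := by
  have h := seven_le hd
  have h1 := choose_two_le (g - 6)
  rw [show g - 6 + 1 = g - 5 by omega] at h1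
  rw [show g - 4 - 2 = g - 6 by omega]
  omega

theorem twist_unique (hg : 7 ≤ g) {T T' : Mod g} (h : IsTwistAt g 1 T) (h' : IsTwistAt g 1 T') :
    T' = T := by
  rw [twist_eq_at (by omega) (by omega) T h, twist_eq_at (by omega) (by omega) T' h']

/-- the relations between the operators -/
theorem rel (hd : d < (g - 5).choose 2) (f : Mod g →* Matrix.GeneralLinearGroup (Fin d) K)
    {T : Mod g} (hT : IsTwistAt g 1 T) :
    NRel (2 * g) (fun j => rho f (tt g j) - 1) (rho f T - 1) := by
  have hg := seven_le hd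
  have hp := pow_bound hd
  refine nrel (humRel (by omega) hT) (by omega) (rho f) ?_ ?_
  · have h := unip_mod (k := 2) (by omega) (by omega) hd hp f (tt g 0) (tt_zero (by omega))
    rw [rho_sub, ← map_mul, ← pow_two, h, map_zero]
  · have h := prod_mod (k := 2) (by omega) (by omega) hd hp f [1, 0] (by simp)
      (by intro i hi; simp at hi; omega) (by simp)
      (fun i => if i = 0 then tt g 0 else T) (by
        intro i hi
        simp only [List.mem_cons, List.not_mem_nil, or_false] at hi
        rcases hi with rfl | rfl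
        · rw [if_neg (by omega)]; exact hT
        · rw [if_pos rfl]; exact tt_zero (by omega))
    simp only [List.map_cons, List.map_nil, List.prod_cons, List.prod_nil, mul_one, if_true,
      one_ne_zero, if_false] at h
    rw [rho_sub, rho_sub, ← map_mul, h, map_zero]

theorem chain_mem (j : Fin (2 * g)) : chainTwist g j ∈ Humphries g :=
  Subgroup.subset_closure (Or.inl ⟨j, rfl⟩)

theorem tt_mem {j : ℕ} (hj : j < 2 * g) : tt g j ∈ Humphries g := by
  rw [tt_lt hj]
  exact chain_mem _

theorem e_mem {T : Mod g} (hT : IsTwistAt g 1 T) : T ∈ Humphries g :=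
  Subgroup.subset_closure (Or.inr hT)

theorem inv_to (f : Mod g →* Matrix.GeneralLinearGroup (Fin d) K) {T : Mod g}
    (hT : IsTwistAt g 1 T) {W : Submodule K (Fin d → K)} (hW : Invariant f W) :
    NInv (2 * g) (fun j => rho f (tt g j) - 1) (rho f T - 1) W where
  inv := by
    intro j hj v hv
    show rho f (tt g j) v - v ∈ W
    rw [rho_apply]
    exact W.sub_mem (hW _ (tt_mem hj) v hv) hv
  invE := by
    intro v hv
    show rho f T v - v ∈ W
    rw [rho_apply]
    exact W.sub_mem (hW _ (e_mem hT) v hv) hv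

theorem inv_apply {f : Mod g →* Matrix.GeneralLinearGroup (Fin d) K} {x : Mod g}
    (h : ∀ v, (rho f x - 1) ((rho f x - 1) v) = 0) (v : Fin d → K) :
    rho f x⁻¹ v = v - (rho f x - 1) v := by
  have h1 : rho f x (v - (rho f x - 1) v) = v := by
    have h2 := h v
    have h3 : rho f x (v - (rho f x - 1) v) =
        v - (rho f x - 1) ((rho f x - 1) v) := by
      simp only [LinearMap.sub_apply, Module.End.one_apply, map_sub]
      abel
    rw [h3, h2, sub_zero]
  have h2 : rho f x⁻¹ (rho f x (v - (rho f x - 1) v)) = v - (rho f x - 1) v := by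
    rw [← Module.End.mul_apply, ← map_mul, inv_mul_cancel, map_one, Module.End.one_apply]
  rwa [h1] at h2

theorem inv_of (hd : d < (g - 5).choose 2) (f : Mod g →* Matrix.GeneralLinearGroup (Fin d) K)
    {T : Mod g} (hT : IsTwistAt g 1 T) {W : Submodule K (Fin d → K)}
    (hW : NInv (2 * g) (fun j => rho f (tt g j) - 1) (rho f T - 1) W) : Invariant f W := by
  have hr := rel hd f hT
  have key : ∀ x ∈ Humphries g, ∀ v ∈ W, rho f x v ∈ W ∧ rho f x⁻¹ v ∈ W := by
    intro x hx
    induction hx using Subgroup.closure_induction with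
    | mem x hx =>
      rcases hx with ⟨j, rfl⟩ | hx
      · intro v hv
        have e := tt_lt (g := g) j.2
        have h1 := hW.inv j j.2 v hv
        have h2 := hr.sq j j.2
        rw [e] at h1 h2
        refine ⟨?_, ?_⟩
        · have h3 := W.add_mem h1 hv
          simpa using h3
        · have h3 := inv_apply (f := f) (x := chainTwist g j) h2 v
          rw [h3]
          exact W.sub_mem hv h1
      · have hx' : IsTwistAt g 1 x := hx
        rw [twist_unique (seven_le hd) hT hx']
        intro v hv
        have h1 := hW.invE v hv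
        refine ⟨?_, ?_⟩
        · have h3 := W.add_mem h1 hv
          simpa using h3
        · rw [inv_apply hr.sqE v]
          exact W.sub_mem hv h1
    | one =>
      intro v hv
      rw [inv_one, map_one, Module.End.one_apply]
      exact ⟨hv, hv⟩
    | mul x y _ _ h1 h2 =>
      intro v hv
      rw [map_mul, mul_inv_rev, map_mul, Module.End.mul_apply, Module.End.mul_apply]
      exact ⟨(h1 _ (h2 v hv).1).1, (h2 _ (h1 v hv).2).2⟩
    | inv x _ h1 =>
      intro v hv
      rw [inv_inv]
      exact ⟨(h1 v hv).2, (h1 v hv).1⟩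
  intro x hx v hv
  rw [← rho_apply]
  exact (key x hx v hv).1

theorem form_sum (v c : Fin g ⊕ Fin g → ℤ) :
    ∑ k, (v k : K) * sf K c k = ((intersectionForm v c : ℤ) : K) := by
  unfold intersectionForm
  rw [Fintype.sum_sum_type, ← Finset.sum_add_distrib]
  push_cast
  apply Finset.sum_congr rfl
  intro i _
  simp only [sf, Sum.elim_inl, Sum.elim_inr]
  ring

theorem comb_tv (v : Fin g ⊕ Fin g → (Fin d → K)) (c n : Fin g ⊕ Fin g → ℤ) :
    comb v (tv c n) = comb v n - ((intersectionForm n c : ℤ) : K) • comb v c := by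
  unfold comb tv
  rw [Finset.smul_sum, ← Finset.sum_sub_distrib]
  apply Finset.sum_congr rfl
  intro i _
  rw [smul_smul, ← sub_smul]
  congr 1
  simp

theorem gen_equiv {W1 : Submodule K (Fin d → K)} {v : Fin g ⊕ Fin g → (Fin d → K)}
    {F : Module.End K (Fin d → K)} {x : Fin d → K} {c : Fin g ⊕ Fin g → ℤ}
    (hG : GenRel W1 v (F - 1) x c) (n : Fin g ⊕ Fin g → ℤ) :
    F (comb v n) - comb v (tv c n) ∈ W1 := by
  have h1 := lin_mod (W1 := W1) (F - 1) v (fun k => (n k : K)) (sf K c) x hG.rel
  rw [form_sum] at h1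
  rw [comb_tv]
  have e : F (comb v n) - (comb v n - ((intersectionForm n c : ℤ) : K) • comb v c) =
      (F - 1) (∑ i, (n i : K) • v i) + ((intersectionForm n c : ℤ) : K) • x := by
    rw [hG.val]
    show F (comb v n) - (comb v n - _) = F (comb v n) - comb v n + _
    unfold comb
    abel
  rw [e]
  exact h1

theorem comb_gen (v : Fin g ⊕ Fin g → (Fin d → K)) (k : Fin g ⊕ Fin g) :
    comb v (homologyClass (gen k)) = v k := by
  have e : homologyClass (gen k) = Pi.single k 1 := by
    rcases k with m | m
    · exact hc_fa m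
    · exact hc_fb m
  unfold comb
  rw [e, Finset.sum_eq_single k]
  · simp
  · intro b _ hb
    rw [Pi.single_eq_of_ne hb]
    simp
  · intro h; exact absurd (Finset.mem_univ _) h

theorem classOf_inv (φ : orientedAut g) : classOf g φ⁻¹ = (classOf g φ)⁻¹ := rfl

theorem equiv_all (hd : d < (g - 5).choose 2) (f : Mod g →* Matrix.GeneralLinearGroup (Fin d) K)
    {T : Mod g} (hT : IsTwistAt g 1 T) {W1 : Submodule K (Fin d → K)} (hW1 : Invariant f W1)
    {w : ℕ → (Fin d → K)}
    (r : RRel (2 * g) (fun j => rho f (tt g j) - 1) (rho f T - 1) W1 w) :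
    ∀ x ∈ Humphries g, ∃ φ : orientedAut g, classOf g φ = x ∧ ∀ y : SurfaceGroup g,
      rho f x (comb (ub g w) (homologyClass y)) - comb (ub g w) (homologyClass (φ.1 y)) ∈ W1 := by
  intro x hx
  induction hx using Subgroup.closure_induction with
  | mem x hx =>
    rcases hx with ⟨⟨j, hj⟩, rfl⟩ | hx
    · refine ⟨_, rfl, ?_⟩
      intro y
      rcases Nat.even_or_odd' j with ⟨i, rfl | rfl⟩
      · have h1 := gen_even r (⟨i, by omega⟩ : Fin g)
        have h2 := hc_even (⟨i, by omega⟩ : Fin g) y
        have h3 : ce (⟨i, by omega⟩ : Fin g) = homologyClass (mk g (ee (⟨i, by omega⟩ : Fin g))) := by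
          funext k
          rcases k with m | m
          · rw [ee_inl]; rfl
          · rw [ee_inr]; rfl
        rw [h3] at h1
        have e := tt_lt (g := g) (j := 2 * i) (by omega)
        have h4 := gen_equiv (F := rho f (tt g (2 * i))) h1 (homologyClass y)
        rw [← h2, e] at h4
        exact h4
      · have h1 := gen_odd r (⟨i, by omega⟩ : Fin g)
        have h2 := hc_odd (⟨i, by omega⟩ : Fin g) y
        have e := tt_lt (g := g) (j := 2 * i + 1) (by omega)
        have h4 := gen_equiv (F := rho f (tt g (2 * i + 1))) h1 (homologyClass y)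
        rw [← h2, e] at h4
        exact h4
    · have hx' : IsTwistAt g 1 x := hx
      rw [twist_unique (seven_le hd) hT hx']
      have hg := seven_le hd
      have hT2 := hT
      obtain ⟨τ, hτ, h⟩ := hT2
      refine ⟨τ, hτ, ?_⟩
      intro y
      have h1 := gen_e r (⟨1, by omega⟩ : Fin g) rfl
      have h2 := hc_tau h (⟨1, by omega⟩ : Fin g) rfl y
      have h4 := gen_equiv (F := rho f T) h1 (homologyClass y)
      rw [← h2] at h4
      exact h4
  | one =>
    refine ⟨1, rfl, ?_⟩
    intro y
    rw [map_one, Module.End.one_apply]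
    have : ((1 : orientedAut g).1 : MulAut (SurfaceGroup g)) y = y := rfl
    rw [this, sub_self]
    exact W1.zero_mem
  | mul x x' hx hx' h1 h2 =>
    obtain ⟨φ, rfl, h1⟩ := h1
    obtain ⟨φ', rfl, h2⟩ := h2
    refine ⟨φ * φ', rfl, ?_⟩
    intro y
    have h3 := h1 (φ'.1 y)
    have h4 := hW1 _ hx _ (h2 y)
    rw [← rho_apply, map_sub] at h4
    have h5 := W1.add_mem h4 h3
    rw [sub_add_sub_cancel] at h5
    rw [map_mul, Module.End.mul_apply]
    exact h5
  | inv x hx h1 =>
    obtain ⟨φ, rfl, h1⟩ := h1
    refine ⟨φ⁻¹, rfl, ?_⟩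
    intro y
    have h3 := h1 ((φ⁻¹).1 y)
    have e1 : φ.1 ((φ⁻¹).1 y) = y := by
      rw [InvMemClass.coe_inv, MulAut.apply_inv_self]
    rw [e1] at h3
    have h4 := hW1 _ (inv_mem hx) _ h3
    rw [← rho_apply, map_sub, ← Module.End.mul_apply, ← map_mul, inv_mul_cancel, map_one,
      Module.End.one_apply] at h4
    have h5 := W1.neg_mem h4
    rwa [neg_sub] at h5

theorem fix_Vinv (hg : 7 ≤ g) (f : Mod g →* Matrix.GeneralLinearGroup (Fin d) K)
    {T : Mod g} (hT : IsTwistAt g 1 T) :
    ∀ x ∈ Humphries g, ∀ v ∈ Vinv (2 * g) (fun j => rho f (tt g j) - 1) (rho f T - 1),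
      rho f x v = v := by
  intro x hx
  induction hx using Subgroup.closure_induction with
  | mem x hx =>
    rcases hx with ⟨j, rfl⟩ | hx
    · intro v hv
      have h1 := (mem_Vinv.1 hv).1 j j.2
      rw [tt_lt j.2] at h1
      exact sub_eq_zero.1 h1
    · have hx' : IsTwistAt g 1 x := hx
      rw [twist_unique hg hT hx']
      intro v hv
      exact sub_eq_zero.1 (mem_Vinv.1 hv).2
  | one => intro v _; rw [map_one, Module.End.one_apply]
  | mul x y _ _ h1 h2 =>
    intro v hv
    rw [map_mul, Module.End.mul_apply, h2 v hv, h1 v hv]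
  | inv x _ h1 =>
    intro v hv
    have h2 : rho f x⁻¹ (rho f x v) = v := by
      rw [← Module.End.mul_apply, ← map_mul, inv_mul_cancel, map_one, Module.End.one_apply]
    rwa [h1 v hv] at h2

theorem mem_Vim (hg : 7 ≤ g) (f : Mod g →* Matrix.GeneralLinearGroup (Fin d) K)
    {T : Mod g} (hT : IsTwistAt g 1 T) :
    ∀ x ∈ Humphries g, ∀ v : Fin d → K,
      rho f x v - v ∈ Vim (2 * g) (fun j => rho f (tt g j) - 1) (rho f T - 1) := by
  intro x hx
  induction hx using Subgroup.closure_induction with
  | mem x hx =>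
    rcases hx with ⟨j, rfl⟩ | hx
    · intro v
      have h1 := N_mem_Vim (N := fun j => rho f (tt g j) - 1) (E := rho f T - 1) j.2 v
      have e := tt_lt (g := g) j.2
      have h2 : (rho f (tt g j) - 1) v = rho f (chainTwist g j) v - v := by
        rw [e]
        rfl
      rw [← h2]
      exact h1
    · have hx' : IsTwistAt g 1 x := hx
      rw [twist_unique hg hT hx']
      intro v
      exact E_mem_Vim v
  | one => intro v; rw [map_one, Module.End.one_apply, sub_self]; exact Submodule.zero_mem _
  | mul x y _ _ h1 h2 =>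
    intro v
    have h3 := Submodule.add_mem _ (h1 (rho f y v)) (h2 v)
    rw [sub_add_sub_cancel] at h3
    rw [map_mul, Module.End.mul_apply]
    exact h3
  | inv x _ h1 =>
    intro v
    have h2 := h1 (rho f x⁻¹ v)
    rw [← Module.End.mul_apply, ← map_mul, mul_inv_cancel, map_one, Module.End.one_apply] at h2
    have h3 := Submodule.neg_mem _ h2
    rwa [neg_sub] at h3

theorem tor_Vim (hd : d < (g - 5).choose 2) (f : Mod g →* Matrix.GeneralLinearGroup (Fin d) K)
    {T : Mod g} (hT : IsTwistAt g 1 T) (y : Mod g) (hy : Torelli g y) :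
    ∀ v ∈ Vim (2 * g) (fun j => rho f (tt g j) - 1) (rho f T - 1),
      (rho f y - 1) v ∈ Vinv (2 * g) (fun j => rho f (tt g j) - 1) (rho f T - 1) := by
  have hg := seven_le hd
  have hfix := fix_Vinv hg f hT
  have hinv : Invariant f (Vinv (2 * g) (fun j => rho f (tt g j) - 1) (rho f T - 1)) := by
    intro x hx v hv
    rw [← rho_apply, hfix x hx v hv]
    exact hv
  refine F_Vim (rel hd f hT) (by omega) (rho f y - 1) ?_ ?_
  · intro v hv
    exact sub_eq_zero.2 (hfix y hy.1 v hv)
  · intro u hu j hj
    have r := rrel (rel hd f hT) (by omega) hu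
    obtain ⟨φ, hφ, h1⟩ := equiv_all hd f hT hinv r y hy.1
    set w := ww (fun j => rho f (tt g j) - 1) u with hw
    have hub : ∀ k, (rho f y - 1) (ub g w k) ∈
        Vinv (2 * g) (fun j => rho f (tt g j) - 1) (rho f T - 1) := by
      intro k
      have h2 := h1 (gen k)
      have h3 : homologyClass (φ.1 (gen k)) = homologyClass (gen k) := hy.2 φ hφ (gen k)
      rw [h3, comb_gen] at h2
      exact h2
    rcases Nat.even_or_odd' j with ⟨i, rfl | rfl⟩
    · have h := (gen_even r (⟨i, by omega⟩ : Fin g)).val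
      rw [show w (2 * i) = _ from h, map_sum]
      refine Submodule.sum_mem _ fun k _ => ?_
      rw [map_smul]
      exact Submodule.smul_mem _ _ (hub k)
    · exact hub (Sum.inr ⟨i, by omega⟩)

end proofs

end Pool.Agent.R665.MGR
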