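import Mathlib
import Pool.Agent.R665.MGR.Rep

set_option autoImplicit false

/-! The classification, and the splitting of self-extensions. -/

namespace Pool.Agent.R665.MGR.Cls

open Pool.Agent.H29R2.MG Pool.Agent.TH35.MG Pool.Agent.R352.MG Pool.Agent.R665.MGR Module

universe u

section proofs
variable {g d : ℕ} {K : Type u} [Field K]

theorem classify (hd : d < (g - 5).choose 2) (f : Mod g →* Matrix.GeneralLinearGroup (Fin d) K)
    (W1 W2 : Submodule K (Fin d → K)) (h : IrrConstituent f W1 W2) :
    ActsTrivially f W1 W2 ∨ IsHomology f W1 W2 := by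
  have hg := seven_le hd
  obtain ⟨T, hT⟩ := twist_exists_at (g := g) (m := 1) (by omega) (by omega)
  obtain ⟨i1, i2, hlt, hirr⟩ := h
  have hI : Irr (2 * g) (fun j => rho f (tt g j) - 1) (rho f T - 1) W1 W2 :=
    ⟨inv_to f hT i1, inv_to f hT i2, hlt, fun W hW h1 h2 => hirr W (inv_of hd f hT hW) h1 h2⟩
  rcases dich hI with h1 | h1
  · left
    intro x hx
    induction hx using Subgroup.closure_induction with
    | mem x hx =>
      rcases hx with ⟨j, rfl⟩ | hx
      · intro v hv
        have h2 := (h1 v hv).1 j j.2
        rw [tt_lt j.2] at h2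
        rw [← rho_apply]
        exact h2
      · have hx' : IsTwistAt g 1 x := hx
        rw [twist_unique hg hT hx']
        intro v hv
        rw [← rho_apply]
        exact (h1 v hv).2
    | one =>
      intro v _
      rw [← rho_apply, map_one, Module.End.one_apply, sub_self]
      exact W1.zero_mem
    | mul x x' hx _ h2 h3 =>
      intro v hv
      have h4 := i1 _ hx _ (h3 v hv)
      rw [← rho_apply, ← rho_apply, map_sub] at h4
      have h5 := h2 v hv
      rw [← rho_apply] at h5
      have h6 := W1.add_mem h4 h5
      rw [sub_add_sub_cancel] at h6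
      rw [← rho_apply, map_mul, Module.End.mul_apply]
      exact h6
    | inv x hx h2 =>
      intro v hv
      have h4 := i1 _ (inv_mem hx) _ (h2 v hv)
      rw [← rho_apply, ← rho_apply, map_sub, ← Module.End.mul_apply, ← map_mul, inv_mul_cancel,
        map_one, Module.End.one_apply] at h4
      have h5 := W1.neg_mem h4
      rw [neg_sub] at h5
      rw [← rho_apply]
      exact h5
  · right
    obtain ⟨w, r⟩ := exists_w (rel hd f hT) (by omega) hI h1
    refine ⟨ub g w, ub_mem r, span_ub r, fun c hc => lin_indep r (inv_to f hT i1) c hc, ?_⟩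
    intro φ hφ y
    obtain ⟨ψ, hψ, h2⟩ := equiv_all hd f hT i1 r.toRRel _ hφ
    have h3 := h2 y
    rw [hc_class hψ y, rho_apply] at h3
    exact h3

end proofs

end Pool.Agent.R665.MGR.Cls
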